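import Pool.Agent.N95.RF.Cor2
import Pool.Agent.N126.RC.CanMain

/-!
The canonical degrees of curves on the varieties with rational maps to the symmetric powers of generic
complete intersections.
-/

set_option autoImplicit false
set_option linter.unusedSectionVars false
set_option linter.overlappingInstances false

open MvPolynomial FF Module Pool.Agent.W603.LV Pool.Agent.W603.PV Pool.Agent.N126.RC
open Pool.Agent.N111.GI (GenericCI)
open Pool.Agent.N111.FT (aclo)
open Pool.Agent.W602.GT (coords val IsForm)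
open Pool.Agent.Y216 (OnVar)
open Pool.Agent.N95.GP (CoverBound)
open Pool.Agent.N95.GH (OnSet AllCoverBound)
open Pool.Agent.N95.RF (SymMap SymCor)

namespace Pool.Agent.N95.TD

/-- nonconstant maps have positive degree -/
theorem pht_pos {K L : Type} [Field K] [IsAlgClosed K] [CharZero K] [Field L] [Algebra K L]
    [IsFF K L] {n : ℕ} {x : Fin (n + 1) → L} {c : Fin (n + 1)} (hc : x c = 1)
    (h : ∃ j, x j ∉ Set.range (algebraMap K L)) : 0 < pht K x := by
  obtain ⟨j, hj⟩ := h
  by_contra hcon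
  push Not at hcon
  have hxj : x j ≠ 0 := fun h => hj ⟨0, by rw [map_zero, h]⟩
  have hxc : x c ≠ 0 := by
    rw [hc]
    exact one_ne_zero
  have h1 := Pool.Agent.W603.CX.hgt_le_pht (k := K) x hxj hxc
  rw [hc, div_one] at h1
  obtain ⟨a, ha⟩ := const_of_hgt (k := K) (f := x j) (h1.trans hcon)
  exact hj ⟨a, ha.symm⟩

/-- The curves on the closed subset `X = {G = 0}` of a weighted projective space, outside of a set
`bad`: for all smooth projective curves (with function field `B`) of genus `g`, all coverings of degree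
at most `q` (with function field `E`) by smooth projective curves, and all nonconstant maps `f` from
these to `X` (with coordinates `z`, `z (inl c) = 1`), with image not in `bad`,
`K_X · f ≤ A (2 g - 2)`, where `canDeg K B = 2 g - 2`. -/
def CanonicalCoverBound {K : Type} [Field K] [IsAlgClosed K] [CharZero K] {n : ℕ} {W ι : Type}
    [Fintype W] (e : W → ℕ) (G : ι → MvPolynomial (Fin (n + 1) ⊕ W) K) (w q : ℕ)
    (g : MvPolynomial (Fin (n + 1)) K) (A : ℕ) : Prop :=
  ∀ (B E : Type) [Field B] [Field E] [Algebra K B] [Algebra K E] [Algebra B E]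
    [IsScalarTower K B E] [FiniteDimensional B E] [IsFF K B] [IsFF K E], finrank B E ≤ q →
    ∀ (z : Fin (n + 1) ⊕ W → E) (c : Fin (n + 1)), z (Sum.inl c) = 1 → (∀ i, aeval z (G i) = 0) →
      (∃ v, z v ∉ Set.range (algebraMap K E)) → aeval (fun j => z (Sum.inl j)) g ≠ 0 →
      ∀ u : Fin (w + 1) → Fin (n + 1) ⊕ W → E, TangentBasis G z u →
        canX K e z u ≤ A * canDeg K B

section

variable {K : Type} [Field K] [IsAlgClosed K] [CharZero K] {n q : ℕ} {W ι : Type} [Fintype W]
  [Finite ι]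

/-- From degrees to canonical degrees. -/
theorem can_cover (e : W → ℕ) (G : ι → MvPolynomial (Fin (n + 1) ⊕ W) K)
    (hG : ∀ i, ∃ c, (G i).IsWeightedHomogeneous (wts e) c) (hfin : FiniteOver G) (w : ℕ)
    (g : MvPolynomial (Fin (n + 1)) K) (A : ℕ)
    (h : ∀ (B E : Type) [Field B] [Field E] [Algebra K B] [Algebra K E] [Algebra B E]
      [IsScalarTower K B E] [FiniteDimensional B E] [IsFF K B] [IsFF K E], finrank B E ≤ q →
      ∀ (z : Fin (n + 1) ⊕ W → E) (c : Fin (n + 1)), z (Sum.inl c) = 1 →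
        (∀ i, aeval z (G i) = 0) → aeval (fun j => z (Sum.inl j)) g ≠ 0 →
        pht K (fun j => z (Sum.inl j)) ≤ A * max (canDeg K B) 0) :
    ∃ A' : ℕ, CanonicalCoverBound e G w q g A' := by
  obtain ⟨κ, hκ⟩ := exists_canonicalBound e G hG hfin w
  refine ⟨κ * A, ?_⟩
  intro B E _ _ _ _ _ _ _ _ _ hq z c hc hz hnc hg u hu
  have h1 := hκ E z c hc hz hnc u hu
  have h2 := h B E hq z c hc hz hg
  have h3 : 0 < pht K (fun j => z (Sum.inl j)) := by
    refine pht_pos (c := c) hc ?_
    by_contra hcon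
    push Not at hcon
    obtain ⟨v, hv⟩ := hnc
    exact hv (const_of_x hfin z hz hcon v)
  have h4 : 0 < canDeg K B := by
    by_contra hcon
    push Not at hcon
    rw [max_eq_right hcon, mul_zero] at h2
    omega
  rw [max_eq_left h4.le] at h2
  have h5 : canX K e z u ≤ κ * pht K (fun j => z (Sum.inl j)) := by exact_mod_cast h1
  calc canX K e z u ≤ κ * pht K (fun j => z (Sum.inl j)) := h5
    _ ≤ κ * (A * canDeg K B) := mul_le_mul_of_nonneg_left h2 (by positivity)
    _ = ((κ * A : ℕ) : ℤ) * canDeg K B := by push_cast; ring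

end

section

variable {k K : Type} [Field k] [Field K] [Algebra k K] [IsAlgClosed K] [CharZero K]
  {X : GenericCI k K} {N q r : ℕ} {W ι : Type} [Fintype W] [Finite ι]

/-- **Varieties with generically finite rational maps to symmetric powers.** -/
theorem can_gen {L : Type} [Field L] [Algebra K L] {v : Fin (N + 1) → L} (hv : v ≠ 0)
    (hv' : coords K v = ⊤) (f : SymMap k K L X r)
    (hf : ∀ z : L, algebraMap L (AlgebraicClosure L) z ∈ aclo K f.values)
    (hb : 2 * X.m + q * r ≤ ∑ a, (X.d a + 1)) (hb' : 2 * X.m + 2 ≤ ∑ a, (X.d a + 1))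
    (e : W → ℕ) (G : ι → MvPolynomial (Fin (N + 1) ⊕ W) K)
    (hG : ∀ i, ∃ c, (G i).IsWeightedHomogeneous (wts e) c) (hfin : FiniteOver G)
    (hov : ∀ z : Fin (N + 1) ⊕ W → K, (∀ i, eval z (G i) = 0) →
      ∀ H : MvPolynomial (Fin (N + 1)) K, IsForm H → val v H = 0 →
        eval (fun j => z (Sum.inl j)) H = 0) (w : ℕ) :
    ∃ g : MvPolynomial (Fin (N + 1)) K, IsForm g ∧ val v g ≠ 0 ∧
      ∃ A : ℕ, CanonicalCoverBound e G w q g A := by
  obtain ⟨g, hg, hgv, A, hA⟩ := f.cover_self hb hb' hv hv' hf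
  refine ⟨g, hg, hgv, can_cover e G hG hfin w g A ?_⟩
  intro B E _ _ _ _ _ _ _ _ _ hq z c hc hz hgz
  refine hA B E hq (fun j => z (Sum.inl j)) ⟨⟨c, ?_⟩, fun H hH hHv => ?_⟩ hgz
  · change z (Sum.inl c) ≠ 0
    rw [hc]
    exact one_ne_zero
  · have h1 : aeval z (rename Sum.inl H) = 0 := by
      refine ns_point G (rename Sum.inl H) (fun y hy => ?_) z hz
      rw [eval_rename]
      exact hov y hy H hH hHv
    rw [aeval_rename] at h1
    exact h1

/-- **Varieties with finite maps to symmetric powers.** -/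
theorem can_fin {Φ : Set (MvPolynomial (Fin (N + 1)) K)} (hΦ : ∀ f ∈ Φ, ∃ e, f.IsHomogeneous e)
    (C : SymCor Φ X r)
    (hb : 2 * X.m + q * r ≤ ∑ a, (X.d a + 1)) (hb' : 2 * X.m + 2 ≤ ∑ a, (X.d a + 1))
    (e : W → ℕ) (G : ι → MvPolynomial (Fin (N + 1) ⊕ W) K)
    (hG : ∀ i, ∃ c, (G i).IsWeightedHomogeneous (wts e) c) (hfin : FiniteOver G)
    (hov : ∀ z : Fin (N + 1) ⊕ W → K, (∀ i, eval z (G i) = 0) →
      ∀ H ∈ Φ, eval (fun j => z (Sum.inl j)) H = 0) (w : ℕ) :
    ∃ A : ℕ, CanonicalCoverBound e G w q 1 A := by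
  obtain ⟨A, hA⟩ := C.cover hΦ hb hb'
  refine can_cover e G hG hfin w 1 A ?_
  intro B E _ _ _ _ _ _ _ _ _ hq z c hc hz hgz
  refine hA B E hq (fun j => z (Sum.inl j)) ⟨ne_zero_of_one hc, fun H hH => ?_⟩
  have h1 : aeval z (rename Sum.inl H) = 0 := by
    refine ns_point G (rename Sum.inl H) (fun y hy => ?_) z hz
    rw [eval_rename]
    exact hov y hy H hH
  rw [aeval_rename] at h1
  exact h1

end

end Pool.Agent.N95.TD
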