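import Pool.Agent.N95.TD.Can
import Pool.Agent.Y216.Spec

/-!
The curves in a proper closed subset of a surface have bounded degrees.
-/

set_option autoImplicit false
set_option linter.unusedSectionVars false
set_option linter.overlappingInstances false

open MvPolynomial

namespace Pool.Agent.N95.TD

section spec

variable {K : Type} [Field K] {σ : Type}

/-- Specialisations of the same dimension are isomorphisms. -/
theorem ker_eq {E F : Type} [Field E] [Field F] [Algebra K E] [Algebra K F] {z : σ → E}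
    {y : σ → F} (h : ∀ P : MvPolynomial σ K, aeval y P = 0 → aeval z P = 0)
    (hFE : Algebra.trdeg K F ≤ Algebra.trdeg K E) (hfin : Algebra.trdeg K F < Cardinal.aleph0)
    (hz : IntermediateField.adjoin K (Set.range z) = ⊤) (P : MvPolynomial σ K)
    (hP : aeval z P = 0) : aeval y P = 0 := by
  classical
  have halg : Algebra.IsAlgebraic (Algebra.adjoin K (Set.range z)) E := by
    constructor
    intro a
    have h1 : a ∈ IntermediateField.adjoin K (Set.range z) := by
      rw [hz]
      exact IntermediateField.mem_top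
    obtain ⟨r, hr, s, hs, rfl⟩ := IntermediateField.mem_adjoin_iff_div.1 h1
    have h2 : IsAlgebraic (Algebra.adjoin K (Set.range z)) r :=
      isAlgebraic_algebraMap (⟨r, hr⟩ : Algebra.adjoin K (Set.range z))
    have h3 : IsAlgebraic (Algebra.adjoin K (Set.range z)) s :=
      isAlgebraic_algebraMap (⟨s, hs⟩ : Algebra.adjoin K (Set.range z))
    rw [div_eq_mul_inv]
    exact h2.mul h3.inv
  obtain ⟨t, htz, ht⟩ := exists_isTranscendenceBasis_subset (R := K) (Set.range z)
  choose b hb using fun a : t => htz a.2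
  have hzb : (fun a : t => z (b a)) = Subtype.val := funext hb
  have hind : AlgebraicIndependent K fun a : t => y (b a) := by
    rw [algebraicIndependent_iff]
    intro p hp
    have h1 : aeval y (rename b p) = 0 := by
      rw [aeval_rename]
      exact hp
    have h2 := h _ h1
    rw [aeval_rename] at h2
    have h3 : aeval (Subtype.val : t → E) p = 0 := by
      rw [← hzb]
      exact h2
    exact (algebraicIndependent_iff.1 ht.1) p h3
  have hcard : Cardinal.mk t = Algebra.trdeg K E := ht.cardinalMk_eq_trdeg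
  have hyb : IsTranscendenceBasis K fun a : t => y (b a) :=
    hind.isTranscendenceBasis_of_trdeg_le hfin (by rw [hcard]; exact hFE)
  by_contra hne
  have h1 : Algebra.IsAlgebraic (Algebra.adjoin K (Set.range fun a : t => y (b a))) F :=
    hyb.isAlgebraic
  obtain ⟨q, hq0, hq⟩ := (h1.isAlgebraic (aeval y P)).exists_nonzero_coeff_and_aeval_eq_zero
    (mem_nonZeroDivisors_of_ne_zero hne)
  let ε := hind.aevalEquiv
  obtain ⟨q', hq'⟩ : ∃ q' : Polynomial (MvPolynomial t K), q' = q.map (ε.symm : _ →+* _) := ⟨_, rfl⟩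
  have hq'0 : q'.coeff 0 ≠ 0 := by
    rw [hq', Polynomial.coeff_map]
    intro h0
    exact hq0 ((map_eq_zero_iff _ ε.symm.injective).1 h0)
  let Q : MvPolynomial σ K := q'.eval₂ (rename b : MvPolynomial t K →ₐ[K] _).toRingHom P
  have hcomp : ∀ {G : Type} [Field G] [Algebra K G] (u : σ → G),
      aeval u Q = q'.eval₂ (aeval (fun a : t => u (b a)) : MvPolynomial t K →ₐ[K] G).toRingHom
        (aeval u P) := by
    intro G _ _ u
    have h2 := Polynomial.hom_eval₂ q' (rename b : MvPolynomial t K →ₐ[K] MvPolynomial σ K).toRingHom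
      (aeval u : MvPolynomial σ K →ₐ[K] G).toRingHom P
    have h3 : (aeval u : MvPolynomial σ K →ₐ[K] G).toRingHom.comp
        (rename b : MvPolynomial t K →ₐ[K] MvPolynomial σ K).toRingHom =
        (aeval (fun a : t => u (b a)) : MvPolynomial t K →ₐ[K] G).toRingHom := by
      apply MvPolynomial.ringHom_ext
      · intro r
        simp
      · intro i
        simp
    rw [h3] at h2
    exact h2
  have hQy : aeval y Q = 0 := by
    rw [hcomp, hq', Polynomial.eval₂_map]
    rw [Polynomial.aeval_def] at hq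
    have h2 : (aeval (fun a : t => y (b a)) : MvPolynomial t K →ₐ[K] F).toRingHom.comp
        (ε.symm : _ →+* _) = algebraMap (Algebra.adjoin K (Set.range fun a : t => y (b a))) F := by
      ext r
      have h3 := hind.algebraMap_aevalEquiv (ε.symm r)
      rw [AlgEquiv.apply_symm_apply] at h3
      exact h3.symm
    rw [h2]
    exact hq
  have hQz := h _ hQy
  rw [hcomp, hP, Polynomial.eval₂_at_zero] at hQz
  have h2 : aeval (fun a : t => z (b a)) (q'.coeff 0) = 0 := hQz
  rw [hzb] at h2
  exact hq'0 ((algebraicIndependent_iff.1 ht.1) _ h2)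

end spec

section curves

open FF Pool.Agent.W603.LV Pool.Agent.W603.PV IntermediateField
open Pool.Agent.W602.GT (coords val IsForm)
open Pool.Agent.Y216 (OnVar rel_affine)

variable {K : Type} [Field K] [IsAlgClosed K] [CharZero K]

theorem trdeg_ff (E : Type) [Field E] [Algebra K E] [IsFF K E] : Algebra.trdeg K E = 1 := by
  obtain ⟨t, ht⟩ := IsFF.exists_transcendental (k := K) (K := E)
  have hfd : FiniteDimensional K⟮t⟯ E := IsFF.finite ht
  have hb : IsTranscendenceBasis K (fun _ : Unit => t) := by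
    have h1 : AlgebraicIndependent K (fun _ : Unit => t) :=
      (algebraicIndependent_unique_type_iff).2 ht
    rw [h1.isTranscendenceBasis_iff_isAlgebraic]
    have h2 : Set.range (fun _ : Unit => t) = {t} := by simp
    rw [h2]
    have h3 : Algebra.IsAlgebraic K⟮t⟯ E := inferInstance
    exact Pool.Agent.W602.GT.alg_adjoin h3
  have h1 := hb.cardinalMk_eq_trdeg
  simpa using h1.symm

theorem hgt_equiv {E E' : Type} [Field E] [Field E'] [Algebra K E] [Algebra K E'] [IsFF K E]
    [IsFF K E'] (τ : E ≃ₐ[K] E') (a : E) : hgt K (τ a) = hgt K a := by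
  let _ : Algebra E E' := (τ : E →+* E').toAlgebra
  have : IsScalarTower K E E' := IsScalarTower.of_algebraMap_eq fun c => (τ.commutes c).symm
  let l : E ≃ₗ[E] E' :=
    { toFun := τ
      invFun := τ.symm
      left_inv := τ.symm_apply_apply
      right_inv := τ.apply_symm_apply
      map_add' := map_add τ
      map_smul' := fun c x => by
        rw [RingHom.id_apply, smul_eq_mul, map_mul, Algebra.smul_def]
        rfl }
  have h1 : Module.finrank E E' = 1 := by
    rw [← l.finrank_eq, Module.finrank_self]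
  have : FiniteDimensional E E' := Module.Finite.equiv l
  have h2 := hgt_algebraMap (k := K) (F := E) (L := E') a
  rw [h1, Nat.cast_one, one_mul] at h2
  exact h2

/-- Points with the same relations, which generate the fields. -/
theorem exists_equiv {σ E E' : Type} [Field E] [Field E'] [Algebra K E] [Algebra K E']
    {x : σ → E} {x' : σ → E'} (hx : adjoin K (Set.range x) = ⊤) (hx' : adjoin K (Set.range x') = ⊤)
    (h : ∀ P : MvPolynomial σ K, aeval x P = 0 ↔ aeval x' P = 0) :
    ∃ τ : E ≃ₐ[K] E', ∀ i, τ (x i) = x' i := by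
  let I : Ideal (MvPolynomial σ K) := RingHom.ker (aeval x : MvPolynomial σ K →ₐ[K] E)
  have hI : ∀ P, P ∈ I ↔ aeval x P = 0 := fun P => RingHom.mem_ker
  have hprime : I.IsPrime := RingHom.ker_isPrime _
  let A := MvPolynomial σ K ⧸ I
  let φ : A →ₐ[K] E := Ideal.Quotient.liftₐ I (aeval x) fun P hP => (hI P).1 hP
  let φ' : A →ₐ[K] E' := Ideal.Quotient.liftₐ I (aeval x') fun P hP => (h P).1 ((hI P).1 hP)
  have hφ : ∀ P, φ (Ideal.Quotient.mk I P) = aeval x P := fun P => rfl
  have hφ' : ∀ P, φ' (Ideal.Quotient.mk I P) = aeval x' P := fun P => rfl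
  have hinj : Function.Injective φ := by
    rw [injective_iff_map_eq_zero]
    intro a
    obtain ⟨P, rfl⟩ := Ideal.Quotient.mk_surjective a
    intro ha
    rw [hφ] at ha
    exact Ideal.Quotient.eq_zero_iff_mem.2 ((hI P).2 ha)
  have hinj' : Function.Injective φ' := by
    rw [injective_iff_map_eq_zero]
    intro a
    obtain ⟨P, rfl⟩ := Ideal.Quotient.mk_surjective a
    intro ha
    rw [hφ'] at ha
    exact Ideal.Quotient.eq_zero_iff_mem.2 ((hI P).2 ((h P).2 ha))
  let _ : Algebra A E := φ.toRingHom.toAlgebra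
  let _ : Algebra A E' := φ'.toRingHom.toAlgebra
  have t1 : IsScalarTower K A E := IsScalarTower.of_algebraMap_eq fun c => (φ.commutes c).symm
  have t2 : IsScalarTower K A E' := IsScalarTower.of_algebraMap_eq fun c => (φ'.commutes c).symm
  have f1 : FaithfulSMul A E := (faithfulSMul_iff_algebraMap_injective A E).2 hinj
  have f2 : FaithfulSMul A E' := (faithfulSMul_iff_algebraMap_injective A E').2 hinj'
  have g1 : IsFractionRing A E := IsFractionRing.of_field A E fun z => by
    have h1 : z ∈ adjoin K (Set.range x) := by rw [hx]; exact mem_top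
    obtain ⟨r, s, rfl⟩ := (mem_adjoin_range_iff K x z).1 h1
    exact ⟨Ideal.Quotient.mk I r, Ideal.Quotient.mk I s, rfl⟩
  have g2 : IsFractionRing A E' := IsFractionRing.of_field A E' fun z => by
    have h1 : z ∈ adjoin K (Set.range x') := by rw [hx']; exact mem_top
    obtain ⟨r, s, rfl⟩ := (mem_adjoin_range_iff K x' z).1 h1
    exact ⟨Ideal.Quotient.mk I r, Ideal.Quotient.mk I s, rfl⟩
  let τ : E ≃ₐ[A] E' := IsLocalization.algEquiv (nonZeroDivisors A) E E'
  refine ⟨τ.restrictScalars K, fun i => ?_⟩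
  have h1 : τ (algebraMap A E (Ideal.Quotient.mk I (X i))) =
      algebraMap A E' (Ideal.Quotient.mk I (X i)) := τ.commutes _
  have h2 : algebraMap A E (Ideal.Quotient.mk I (X i)) = x i :=
    (hφ (X i)).trans (aeval_X x i)
  have h3 : algebraMap A E' (Ideal.Quotient.mk I (X i)) = x' i :=
    (hφ' (X i)).trans (aeval_X x' i)
  rw [h2, h3] at h1
  exact h1

/-- The ideal of a curve in a proper closed subset of a surface is minimal over the ideal of the
subset. -/
theorem exc_min {N : ℕ} {L : Type} [Field L] [Algebra K L] {y : Fin (N + 1) → L}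
    (hL : Algebra.trdeg K L = 2) {g : MvPolynomial (Fin (N + 1)) K} (hgy : aeval y g ≠ 0)
    {E : Type} [Field E] [Algebra K E] [IsFF K E] {x : Fin (N + 1) → E}
    (hx : ∀ P : MvPolynomial (Fin (N + 1)) K, aeval y P = 0 → aeval x P = 0)
    (hgen : adjoin K (Set.range x) = ⊤) (hgx : aeval x g = 0) :
    RingHom.ker (aeval x : MvPolynomial (Fin (N + 1)) K →ₐ[K] E) ∈
      (RingHom.ker (aeval y : MvPolynomial (Fin (N + 1)) K →ₐ[K] L) ⊔
        Ideal.span {g}).minimalPrimes := by
  classical
  refine ⟨⟨RingHom.ker_isPrime _, sup_le (fun P hP => ?_) ?_⟩, ?_⟩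
  · exact RingHom.mem_ker.2 (hx P (RingHom.mem_ker.1 hP))
  · rw [Ideal.span_le, Set.singleton_subset_iff]
    exact RingHom.mem_ker.2 hgx
  rintro 𝔮 ⟨h𝔮, hJ⟩ hle
  let A := MvPolynomial (Fin (N + 1)) K ⧸ 𝔮
  let F := FractionRing A
  let y' : Fin (N + 1) → F := fun i => algebraMap A F (Ideal.Quotient.mk 𝔮 (X i))
  have hy' : ∀ P, aeval y' P = algebraMap A F (Ideal.Quotient.mk 𝔮 P) := by
    intro P
    let φ : MvPolynomial (Fin (N + 1)) K →ₐ[K] F :=
      (IsScalarTower.toAlgHom K A F).comp (Ideal.Quotient.mkₐ K 𝔮)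
    have h1 : aeval y' = φ := by
      apply MvPolynomial.algHom_ext
      intro i
      rw [aeval_X]
      rfl
    rw [h1]
    rfl
  have hmem : ∀ P, aeval y' P = 0 ↔ P ∈ 𝔮 := by
    intro P
    rw [hy', map_eq_zero_iff _ (IsFractionRing.injective A F), Ideal.Quotient.eq_zero_iff_mem]
  have hgen' : adjoin K (Set.range y') = ⊤ := by
    rw [eq_top_iff]
    intro z _
    obtain ⟨a, b, -, rfl⟩ := IsFractionRing.div_surjective (A := A) z
    obtain ⟨P, rfl⟩ := Ideal.Quotient.mk_surjective a
    obtain ⟨Q, rfl⟩ := Ideal.Quotient.mk_surjective b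
    rw [mem_adjoin_range_iff]
    exact ⟨P, Q, by rw [hy', hy']⟩
  have hess : Algebra.EssFiniteType K F := by
    have h1 : Algebra.EssFiniteType A F := Algebra.EssFiniteType.of_isLocalization F
      (nonZeroDivisors A)
    exact Algebra.EssFiniteType.comp K A F
  have hfin : Algebra.trdeg K F < Cardinal.aleph0 := Pool.Agent.N133.CC.trdeg_lt
  intro P hP
  by_cases hFE : Algebra.trdeg K F ≤ Algebra.trdeg K E
  · exact (hmem P).1 (ker_eq (z := x) (y := y')
      (fun Q hQ => RingHom.mem_ker.1 (hle ((hmem Q).1 hQ))) hFE hfin hgen P (RingHom.mem_ker.1 hP))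
  · exfalso
    push Not at hFE
    have h1 : Algebra.trdeg K E = 1 := IsFF.trdeg
    obtain ⟨m, hm⟩ := Cardinal.lt_aleph0.1 hfin
    have h2 : Algebra.trdeg K L ≤ Algebra.trdeg K F := by
      rw [h1, hm] at hFE
      rw [hL, hm]
      have h3 : 1 < m := by exact_mod_cast hFE
      exact_mod_cast h3
    refine hgy (ker_eq (z := y') (y := y) (fun Q hQ => (hmem Q).2
      (hJ (Ideal.mem_sup_left (RingHom.mem_ker.2 hQ)))) h2 ?_ hgen' g ((hmem g).2
        (hJ (Ideal.mem_sup_right (Ideal.subset_span rfl)))))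
    rw [hL]
    exact Cardinal.natCast_lt_aleph0 (n := 2)

/-- **The curves in a proper closed subset of a surface** have bounded degrees. -/
theorem exc_bound {N : ℕ} {L : Type} [Field L] [Algebra K L] {v : Fin (N + 1) → L}
    (hL : Algebra.trdeg K L = 2) {g : MvPolynomial (Fin (N + 1)) K} (hg : IsForm g)
    (hgv : val v g ≠ 0) :
    ∃ B : ℕ, ∀ (E : Type) [Field E] [Algebra K E] [IsFF K E] (x : Fin (N + 1) → E)
      (c : Fin (N + 1)), x c = 1 → OnVar K v x → adjoin K (Set.range x) = ⊤ → aeval x g = 0 →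
        pht K x ≤ B := by
  classical
  have hc : ∀ c : Fin (N + 1), ∃ B : ℕ, ∀ (E : Type) [Field E] [Algebra K E] [IsFF K E]
      (x : Fin (N + 1) → E), x c = 1 → OnVar K v x → adjoin K (Set.range x) = ⊤ →
        aeval x g = 0 → pht K x ≤ B := by
    intro c
    by_cases hvc : v c = 0
    · refine ⟨0, fun E _ _ _ x hxc hx _ _ => ?_⟩
      exfalso
      have h1 := hx.2 (X c) ⟨1, isHomogeneous_X K c⟩ (by
        change aeval v (X c) = 0
        rw [aeval_X]
        exact hvc)
      change aeval x (X c) = 0 at h1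
      rw [aeval_X, hxc] at h1
      exact one_ne_zero h1
    let y : Fin (N + 1) → L := fun i => v i / v c
    have hgy : aeval y g ≠ 0 := by
      obtain ⟨d, hd⟩ := hg
      rw [Pool.Agent.N111.GI.aeval_div hd]
      exact mul_ne_zero (pow_ne_zero _ (inv_ne_zero hvc)) hgv
    have hfin := Ideal.finite_minimalPrimes_of_isNoetherianRing (MvPolynomial (Fin (N + 1)) K)
      (RingHom.ker (aeval y : MvPolynomial (Fin (N + 1)) K →ₐ[K] L) ⊔ Ideal.span {g})
    have hB : ∀ 𝔭 : Ideal (MvPolynomial (Fin (N + 1)) K), ∃ B : ℕ, ∀ (E : Type) [Field E]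
        [Algebra K E] [IsFF K E] (x : Fin (N + 1) → E), x c = 1 → adjoin K (Set.range x) = ⊤ →
        RingHom.ker (aeval x : MvPolynomial (Fin (N + 1)) K →ₐ[K] E) = 𝔭 → pht K x ≤ B := by
      intro 𝔭
      by_cases h : ∃ (E : Type) (_ : Field E) (_ : Algebra K E) (_ : IsFF K E)
        (x : Fin (N + 1) → E), adjoin K (Set.range x) = ⊤ ∧
          RingHom.ker (aeval x : MvPolynomial (Fin (N + 1)) K →ₐ[K] E) = 𝔭
      · obtain ⟨E₀, _, _, _, x₀, hx₀, hker₀⟩ := h
        refine ⟨(∑ j, hgt K (x₀ j)).toNat, fun E _ _ _ x hxc hx hker => ?_⟩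
        obtain ⟨τ, hτ⟩ := exists_equiv hx₀ hx (fun P => by
          rw [← RingHom.mem_ker, ← RingHom.mem_ker, hker₀, hker])
        have h1 := pht_le (k := K) x (l := c) (by rw [hxc]; exact one_ne_zero)
        have h2 : ∀ j, hgt K (x j / x c) = hgt K (x₀ j) := by
          intro j
          rw [hxc, div_one, ← hτ j]
          exact hgt_equiv τ _
        rw [Finset.sum_congr rfl fun j _ => h2 j] at h1
        exact h1.trans (Int.self_le_toNat _)
      · exact ⟨0, fun E i1 i2 i3 x hxc hx hker => (h ⟨E, i1, i2, i3, x, hx, hker⟩).elim⟩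
    choose B hB using hB
    refine ⟨∑ 𝔭 ∈ hfin.toFinset, B 𝔭, fun E _ _ _ x hxc hx hgen hgx => ?_⟩
    have h1 := hB _ E x hxc hgen rfl
    have h3 := exc_min (y := y) hL hgy (x := x) (fun P hP => by
      have h4 := rel_affine hvc hx (by rw [hxc]; exact one_ne_zero) P hP
      have h5 : (fun i => x i / x c) = x := by
        funext i
        rw [hxc, div_one]
      rwa [h5] at h4) hgen hgx
    have h2 : B (RingHom.ker (aeval x : MvPolynomial (Fin (N + 1)) K →ₐ[K] E)) ≤
        ∑ 𝔭 ∈ hfin.toFinset, B 𝔭 :=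
      Finset.single_le_sum (fun _ _ => Nat.zero_le _) (hfin.mem_toFinset.2 h3)
    exact h1.trans (by exact_mod_cast h2)
  choose B hB using hc
  refine ⟨∑ c, B c, fun E _ _ _ x c hxc hx hgen hgx => ?_⟩
  have h2 : B c ≤ ∑ c, B c := Finset.single_le_sum (fun _ _ => Nat.zero_le _) (Finset.mem_univ c)
  exact (hB c E x hxc hx hgen hgx).trans (by exact_mod_cast h2)

end curves

section surfaces

open FF Pool.Agent.W603.LV Pool.Agent.W603.PV Pool.Agent.N126.RC
open Pool.Agent.N111.GI (GenericCI)
open Pool.Agent.N111.FT (aclo)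
open Pool.Agent.W602.GT (coords val IsForm)
open Pool.Agent.N95.RF (SymMap)

/-- The canonical degrees of all curves on `X = {G = 0}`: `K_X · C ≤ A max (2 g - 2, 0) + B`, where `C` is
the image of a map, birational onto its image, from the smooth projective curve of genus `g` with
function field `E`. -/
def CanonicalDegreeBound {K : Type} [Field K] [IsAlgClosed K] [CharZero K] {n : ℕ} {W ι : Type}
    [Fintype W] (e : W → ℕ) (G : ι → MvPolynomial (Fin (n + 1) ⊕ W) K) (w A B : ℕ) : Prop :=
  ∀ (E : Type) [Field E] [Algebra K E] [IsFF K E] (z : Fin (n + 1) ⊕ W → E) (c : Fin (n + 1)),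
    z (Sum.inl c) = 1 → (∀ i, aeval z (G i) = 0) →
      IntermediateField.adjoin K (Set.range z) = ⊤ →
      ∀ u : Fin (w + 1) → Fin (n + 1) ⊕ W → E, TangentBasis G z u →
        canX K e z u ≤ A * max (canDeg K E) 0 + B

theorem surface_bound {k K : Type} [Field k] [Field K] [Algebra k K] [IsAlgClosed K] [CharZero K]
    {X : GenericCI k K} {N r : ℕ} {W ι : Type} [Fintype W] [IsEmpty W] [Finite ι]
    {L : Type} [Field L] [Algebra K L] (hL : Algebra.trdeg K L = 2) {v : Fin (N + 1) → L}
    (hv : v ≠ 0) (hv' : coords K v = ⊤) (f : SymMap k K L X r)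
    (hf : ∀ z : L, algebraMap L (AlgebraicClosure L) z ∈ aclo K f.values)
    (hb : 2 * X.m + r ≤ ∑ a, (X.d a + 1)) (hb' : 2 * X.m + 2 ≤ ∑ a, (X.d a + 1))
    (e : W → ℕ) (G : ι → MvPolynomial (Fin (N + 1) ⊕ W) K)
    (hG : ∀ i, ∃ c, (G i).IsWeightedHomogeneous (wts e) c)
    (hov : ∀ z : Fin (N + 1) ⊕ W → K, (∀ i, eval z (G i) = 0) →
      ∀ H : MvPolynomial (Fin (N + 1)) K, IsForm H → val v H = 0 →
        eval (fun j => z (Sum.inl j)) H = 0) (w : ℕ) :
    ∃ A B : ℕ, CanonicalDegreeBound e G w A B := by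
  classical
  have hfin : FiniteOver G := fun w => isEmptyElim w
  obtain ⟨g, hg, hgv, A, hA⟩ := can_gen (q := 1) hv hv' f hf (by rwa [one_mul]) hb' e G hG hfin
    hov w
  obtain ⟨B, hB⟩ := exc_bound hL hg hgv
  obtain ⟨κ, hκ⟩ := exists_canonicalBound e G hG hfin w
  refine ⟨A, κ * B, ?_⟩
  intro E _ _ _ z c hc hz hgen u hu
  have hnc : ∃ v, z v ∉ Set.range (algebraMap K E) := by
    by_contra hcon
    push Not at hcon
    have h1 : IntermediateField.adjoin K (Set.range z) ≤ ⊥ := by
      rw [IntermediateField.adjoin_le_iff]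
      rintro _ ⟨i, rfl⟩
      exact IntermediateField.mem_bot.2 (hcon i)
    obtain ⟨t, ht⟩ := IsFF.exists_transcendental (k := K) (K := E)
    have h2 : t ∈ (⊥ : IntermediateField K E) := h1 (by rw [hgen]; exact IntermediateField.mem_top)
    obtain ⟨a, rfl⟩ := IntermediateField.mem_bot.1 h2
    exact ht (isAlgebraic_algebraMap a)
  have hon : Pool.Agent.Y216.OnVar K v fun j => z (Sum.inl j) := by
    refine ⟨⟨c, ?_⟩, fun H hH hHv => ?_⟩
    · change z (Sum.inl c) ≠ 0
      rw [hc]
      exact one_ne_zero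
    · have h1 : aeval z (rename Sum.inl H) = 0 := by
        refine ns_point G (rename Sum.inl H) (fun y hy => ?_) z hz
        rw [eval_rename]
        exact hov y hy H hH hHv
      rw [aeval_rename] at h1
      exact h1
  have hmax : (0 : ℤ) ≤ A * max (canDeg K E) 0 := by positivity
  by_cases hgx : aeval (fun j => z (Sum.inl j)) g = 0
  · have hrange : Set.range z = Set.range fun j => z (Sum.inl j) := by
      ext a
      constructor
      · rintro ⟨i | i, rfl⟩
        · exact ⟨i, rfl⟩
        · exact isEmptyElim i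
      · rintro ⟨i, rfl⟩
        exact ⟨Sum.inl i, rfl⟩
    have h1 := hB E (fun j => z (Sum.inl j)) c hc hon (by rw [← hrange]; exact hgen) hgx
    have h2 := hκ E z c hc hz hnc u hu
    have h3 : canX K e z u ≤ κ * pht K (fun j => z (Sum.inl j)) := by exact_mod_cast h2
    have h4 : (κ : ℤ) * pht K (fun j => z (Sum.inl j)) ≤ κ * B :=
      mul_le_mul_of_nonneg_left h1 (by positivity)
    push_cast
    linarith
  · have h1 := hA E E (by rw [Module.finrank_self]) z c hc hz hnc hgx u hu
    have h2 : (A : ℤ) * canDeg K E ≤ A * max (canDeg K E) 0 :=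
      mul_le_mul_of_nonneg_left (le_max_left _ _) (by positivity)
    have h3 : (0 : ℤ) ≤ ((κ * B : ℕ) : ℤ) := by positivity
    linarith

end surfaces

end Pool.Agent.N95.TD
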