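import Pool.Agent.N95.TD.Main

/-!
The direct images of rational maps to symmetric powers under coverings.
-/

set_option autoImplicit false
set_option linter.unusedSectionVars false
set_option linter.overlappingInstances false

open FF Module IntermediateField
open Pool.Agent.N111.GI (GenericCI)
open Pool.Agent.N111.FT (aclo mem_aclo subset_aclo aclo_le aclo_mono aclo_closed map_mem_aclo_iff)
open Pool.Agent.W602.GT (GeneralType coords)
open Pool.Agent.N95.PR (ratios base)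
open Pool.Agent.N95.GH (OnSet BiHom Rel isAlgClosed_aclo)
open Pool.Agent.N95.RF (SymMap SymCor arith point_smul rel_smul)
open Pool.Agent.W619.TW (TensorVanish)

namespace Pool.Agent.N95.TD

section

variable {k K : Type} [Field k] [Field K] [CharZero K] [IsAlgClosed K] [Algebra k K]
  {X : GenericCI k K}

/-- images of points -/
theorem point_map {E E' : Type} [Field E] [Field E'] [Algebra K E] [Algebra K E']
    (φ : E →ₐ[K] E') {x : Fin (X.n + 1) → E} (hx : X.Point x) : X.Point (fun i => φ (x i)) := by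
  have h1 : ∀ P : MvPolynomial (Fin (X.n + 1)) K, MvPolynomial.aeval x P = 0 →
      MvPolynomial.aeval (fun i => φ (x i)) P = 0 := by
    intro P hP
    have h2 : φ.comp (MvPolynomial.aeval x) = MvPolynomial.aeval fun i => φ (x i) := by
      apply MvPolynomial.algHom_ext
      intro i
      rw [AlgHom.comp_apply, MvPolynomial.aeval_X, MvPolynomial.aeval_X]
    rw [← h2, AlgHom.comp_apply, hP, map_zero]
  refine ⟨fun h => hx.ne (funext fun i => ?_), fun f hf => h1 _ (hx.mem_V f hf),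
    fun a => h1 _ (hx.mem_F a)⟩
  have h2 : φ (x i) = 0 := congrFun h i
  exact (map_eq_zero φ).1 h2

variable {L L' : Type} [Field L] [Algebra K L] [Field L'] [Algebra K L'] [Algebra L L']
  [IsScalarTower K L L'] [FiniteDimensional L L'] {s : ℕ}

/-- **The direct image under a covering** of a rational map to the symmetric power of order `s`. -/
theorem descend (f : SymMap k K L' X s) :
    ∃ (g : SymMap k K L X (finrank L L' * s))
      (e : AlgebraicClosure L' →ₐ[K] AlgebraicClosure L), ∀ z ∈ f.values, e z ∈ g.values := by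
  classical
  have hL : CharZero L := charZero_of_injective_algebraMap (algebraMap K L).injective
  let Ω := AlgebraicClosure L
  let Ω' := AlgebraicClosure L'
  have h1 : Algebra.IsAlgebraic L Ω' := Algebra.IsAlgebraic.trans L L' Ω'
  have h2 : IsAlgClosure L Ω' := ⟨inferInstance, inferInstance⟩
  have h3 : Normal L Ω' := IsAlgClosure.normal L Ω'
  let e : Ω' ≃ₐ[L] Ω := IsAlgClosure.equiv L Ω' Ω
  -- extensions of the embeddings
  have hext : ∀ ψ : L' →ₐ[L] Ω', ∃ Ψ : Ω' ≃ₐ[L] Ω', ∀ a, Ψ (algebraMap L' Ω' a) = ψ a := by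
    intro ψ
    let σ' : Ω' →ₐ[L] Ω' := ψ.liftNormal Ω'
    have hσ' : Function.Bijective σ' := Algebra.IsAlgebraic.algHom_bijective σ'
    exact ⟨AlgEquiv.ofBijective σ' hσ', fun a => ψ.liftNormal_commutes Ω' a⟩
  choose Ψ hΨ using hext
  let J := (L' →ₐ[L] Ω') × Fin s
  have hcard : Fintype.card J = finrank L L' * s := by
    rw [Fintype.card_prod, AlgHom.card, Fintype.card_fin]
  let q : Fin (finrank L L' * s) ≃ J := (Fintype.equivFinOfCardEq hcard).symm
  let P : J → Fin (X.n + 1) → Ω := fun j i => e (Ψ j.1 (f.p j.2 i))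
  have hP : ∀ j, X.Point (P j) := fun j =>
    point_map (((Ψ j.1).trans e : Ω' →ₐ[L] Ω).restrictScalars K) (f.pt j.2)
  -- stability
  have hst : ∀ σ : Ω ≃ₐ[L] Ω, ∃ π : Equiv.Perm J, ∀ j, ∃ c : Ω,
      (fun i => σ (P j i)) = c • P (π j) := by
    intro σ
    let ρ : Ω' ≃ₐ[L] Ω' := (e.trans σ).trans e.symm
    let ψ' : (L' →ₐ[L] Ω') → (L' →ₐ[L] Ω') := fun ψ => (ρ : Ω' →ₐ[L] Ω').comp ψ
    have hψ' : Function.Injective ψ' := by
      intro ψ₁ ψ₂ h
      ext a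
      have h4 : ρ (ψ₁ a) = ρ (ψ₂ a) := DFunLike.congr_fun h a
      exact ρ.injective h4
    let τ₀ : (L' →ₐ[L] Ω') → (Ω' ≃ₐ[L] Ω') := fun ψ => ((Ψ ψ).trans ρ).trans (Ψ (ψ' ψ)).symm
    have hτ₀ : ∀ ψ a, τ₀ ψ (algebraMap L' Ω' a) = algebraMap L' Ω' a := by
      intro ψ a
      change (Ψ (ψ' ψ)).symm (ρ (Ψ ψ (algebraMap L' Ω' a))) = _
      rw [AlgEquiv.symm_apply_eq, hΨ, hΨ]
      rfl
    let τ : (L' →ₐ[L] Ω') → (Ω' ≃ₐ[L'] Ω') := fun ψ =>
      AlgEquiv.ofRingEquiv (f := (τ₀ ψ : Ω' ≃+* Ω')) (hτ₀ ψ)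
    have hτ : ∀ ψ z, Ψ (ψ' ψ) (τ ψ z) = ρ (Ψ ψ z) := by
      intro ψ z
      change Ψ (ψ' ψ) ((Ψ (ψ' ψ)).symm (ρ (Ψ ψ z))) = _
      rw [AlgEquiv.apply_symm_apply]
    choose π hπ using fun ψ => f.stable (τ ψ)
    let Q : J → J := fun j => (ψ' j.1, π j.1 j.2)
    have hQ : Function.Injective Q := by
      rintro ⟨ψ₁, l₁⟩ ⟨ψ₂, l₂⟩ h
      obtain ⟨h4, h5⟩ := Prod.ext_iff.1 h
      have h6 : ψ₁ = ψ₂ := hψ' h4
      subst h6
      have h7 : l₁ = l₂ := (π ψ₁).injective h5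
      rw [h7]
    refine ⟨Equiv.ofBijective Q ⟨hQ, Finite.surjective_of_injective hQ⟩, fun j => ?_⟩
    obtain ⟨c, hc⟩ := hπ j.1 j.2
    refine ⟨e (Ψ (ψ' j.1) c), ?_⟩
    funext i
    change σ (e (Ψ j.1 (f.p j.2 i))) =
      e (Ψ (ψ' j.1) c) * e (Ψ (ψ' j.1) (f.p (π j.1 j.2) i))
    have h4 : τ j.1 (f.p j.2 i) = c * f.p (π j.1 j.2) i := congrFun hc i
    rw [← map_mul, ← map_mul, ← h4, hτ]
    change _ = e (e.symm (σ (e (Ψ j.1 (f.p j.2 i)))))
    rw [AlgEquiv.apply_symm_apply]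
  let g : SymMap k K L X (finrank L L' * s) :=
    { p := fun l => P (q l)
      pt := fun l => hP _
      stable := fun σ => by
        obtain ⟨π, hπ⟩ := hst σ
        refine ⟨(q.trans π).trans q.symm, fun l => ?_⟩
        obtain ⟨c, hc⟩ := hπ (q l)
        refine ⟨c, ?_⟩
        rw [hc]
        simp }
  let ψ₀ : L' →ₐ[L] Ω' := IsScalarTower.toAlgHom L L' Ω'
  refine ⟨g, (((Ψ ψ₀).trans e : Ω' →ₐ[L] Ω)).restrictScalars K, ?_⟩
  rintro _ ⟨l, i, j, hj, rfl⟩
  refine ⟨q.symm (ψ₀, l), i, j, ?_, ?_⟩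
  · change P (q (q.symm (ψ₀, l))) j ≠ 0
    rw [Equiv.apply_symm_apply]
    change e (Ψ ψ₀ (f.p l j)) ≠ 0
    intro h
    exact hj ((map_eq_zero (Ψ ψ₀)).1 ((map_eq_zero e).1 h))
  · change e (Ψ ψ₀ (f.p l i / f.p l j)) = P (q (q.symm (ψ₀, l))) i / P (q (q.symm (ψ₀, l))) j
    rw [Equiv.apply_symm_apply]
    change e (Ψ ψ₀ (f.p l i / f.p l j)) = e (Ψ ψ₀ (f.p l i)) / e (Ψ ψ₀ (f.p l j))
    rw [map_div₀, map_div₀]

end

end Pool.Agent.N95.TD
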