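import Pool.Agent.N95.TD.Ext

/-!
Multi-valued maps from varieties without tensor differentials to generic complete intersections and
the varieties which are finite over their symmetric powers.
-/

set_option autoImplicit false
set_option linter.unusedSectionVars false
set_option linter.overlappingInstances false

open FF Module IntermediateField
open Pool.Agent.N111.GI (GenericCI)
open Pool.Agent.N111.FT (aclo mem_aclo subset_aclo aclo_le aclo_mono aclo_closed map_mem_aclo_iff)
open Pool.Agent.W602.GT (GeneralType coords)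
open Pool.Agent.N95.PR (ratios base)
open Pool.Agent.N95.GH (OnSet BiHom Rel isAlgClosed_aclo)
open Pool.Agent.N95.RF (SymMap SymCor arith point_smul rel_smul)
open Pool.Agent.W619.TW (TensorVanish)

namespace Pool.Agent.N95.TD

section

variable {k K : Type} [Field k] [Field K] [Algebra k K] [IsAlgClosed K] [CharZero K]
  {X : GenericCI k K}

/-- the rational map to `Sym ^ 1 X = X` given by a point -/
theorem pt_map {E : Type} [Field E] [Algebra K E] {x : Fin (X.n + 1) → E} (hx : X.Point x) :
    ∃ f : SymMap k K E X 1, ∀ v ∈ ratios x, algebraMap E (AlgebraicClosure E) v ∈ f.values := by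
  let Ω := AlgebraicClosure E
  let f : SymMap k K E X 1 :=
    { p := fun _ i => algebraMap E Ω (x i)
      pt := fun _ => point_map (IsScalarTower.toAlgHom K E Ω) hx
      stable := fun σ => ⟨1, fun l => ⟨1, by
        funext i
        rw [one_smul]
        exact σ.commutes (x i)⟩⟩ }
  refine ⟨f, ?_⟩
  rintro _ ⟨i, j, hj, rfl⟩
  refine ⟨0, i, j, ?_, ?_⟩
  · exact (map_ne_zero (algebraMap E Ω)).2 hj
  · exact map_div₀ (algebraMap E Ω) (x i) (x j)

variable {L L' : Type} [Field L] [Algebra K L] [Field L'] [Algebra K L'] [Algebra L L']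
  [IsScalarTower K L L'] [FiniteDimensional L L']

/-- rational maps from the coverings of a variety without tensor differentials to the symmetric
powers -/
theorem cov_const [Algebra.EssFiniteType K L] {n : ℕ} (hn : Algebra.trdeg K L = n)
    (hT : TensorVanish K L n) (hm : 1 ≤ X.m) {R : ℕ} (hdeg : ∀ a, min R n ≤ X.d a)
    (hS : (min R n + 1) * X.m + 2 * R ≤ ∑ a, (X.d a + 1) + min R n) {s : ℕ}
    (hs : finrank L L' * s ≤ R) (f : SymMap k K L' X s) {z : AlgebraicClosure L'}
    (hz : z ∈ f.values) : ∃ c : K, algebraMap K (AlgebraicClosure L') c = z := by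
  obtain ⟨g, e, he⟩ := descend (L := L) f
  obtain ⟨c, hc⟩ := sym_const hn hT hm hdeg hS hs g (he z hz)
  refine ⟨c, ?_⟩
  apply e.toRingHom.injective
  change e _ = e _
  rw [← hc]
  exact e.commutes c

theorem cov_const' [Algebra.EssFiniteType K L] {n : ℕ} (hn : Algebra.trdeg K L = n)
    (hT : TensorVanish K L n) (hm : 1 ≤ X.m) {R : ℕ} (hdeg : ∀ a, min R n ≤ X.d a)
    (hS : (min R n + 1) * X.m + 2 * R ≤ ∑ a, (X.d a + 1) + min R n) {s : ℕ}
    (hs : finrank L L' * s ≤ R) (f : SymMap k K L' X s) {v : L'}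
    (hv : algebraMap L' (AlgebraicClosure L') v ∈ aclo K f.values) :
    ∃ c : K, algebraMap K L' c = v := by
  obtain ⟨c, hc⟩ := const_of_aclo (fun z hz => cov_const (L := L) hn hT hm hdeg hS hs f hz) hv
  refine ⟨c, ?_⟩
  apply (algebraMap L' (AlgebraicClosure L')).injective
  rw [← hc, ← IsScalarTower.algebraMap_apply]

/-- **Multi-valued maps to generic complete intersections** -/
theorem pt_const [Algebra.EssFiniteType K L] {n : ℕ} (hn : Algebra.trdeg K L = n)
    (hT : TensorVanish K L n) (hm : 1 ≤ X.m) {R : ℕ} (hdeg : ∀ a, min R n ≤ X.d a)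
    (hS : (min R n + 1) * X.m + 2 * R ≤ ∑ a, (X.d a + 1) + min R n)
    (hr : finrank L L' ≤ R) {x : Fin (X.n + 1) → L'} (hx : X.Point x) {v : L'}
    (hv : v ∈ ratios x) : ∃ c : K, algebraMap K L' c = v := by
  obtain ⟨f, hf⟩ := pt_map hx
  exact cov_const' (L := L) hn hT hm hdeg hS (by rwa [mul_one]) f (subset_aclo _ (hf v hv))

/-- **Multi-valued maps to varieties which are finite over symmetric powers** -/
theorem map_const [Algebra.EssFiniteType K L] {n : ℕ} (hn : Algebra.trdeg K L = n)
    (hT : TensorVanish K L n) (hm : 1 ≤ X.m) {R : ℕ} (hdeg : ∀ a, min R n ≤ X.d a)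
    (hS : (min R n + 1) * X.m + 2 * R ≤ ∑ a, (X.d a + 1) + min R n) {M : ℕ}
    {Φ : Set (MvPolynomial (Fin (M + 1)) K)} {r : ℕ} (C : SymCor Φ X r)
    (hr : finrank L L' * r ≤ R) {z : Fin (M + 1) → L'} (hz : OnSet Φ z) {i j : Fin (M + 1)}
    (hj : z j ≠ 0) : ∃ c : K, algebraMap K L' c = z i / z j := by
  obtain ⟨s, f, hs, h⟩ := lift_pt C hz
  exact cov_const' (L := L) hn hT hm hdeg hS ((Nat.mul_le_mul_left _ hs).trans hr) f (h i j hj)

end

end Pool.Agent.N95.TD
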