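import Pool.Agent.N95.TD.SelA
import Pool.Agent.N95.TD.Fin
import Pool.Agent.TH466.QT.Tens
import Mathlib.LinearAlgebra.Matrix.Determinant.Basic

/-!
Holomorphic forms which come from canonical forms of a subfield.
-/

set_option autoImplicit false
set_option linter.overlappingInstances false
set_option linter.unusedSectionVars false

open FF IntermediateField

namespace Pool.Agent.N95.TD

open Pool.Agent.TH466.QT
open Pool.Agent.W602.GT Pool.Agent.TH466.QG
open Pool.Agent.W619.TW (TensorVanish)
open Pool.Agent.W619.PQ
open Pool.Agent.W619.Y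
open Pool.Agent.W603.LV (Ge)

/-- `H⁰ (M, Ω ^ q) = 0`, where `M` is a smooth projective variety of dimension `n` with function field
`L`: each alternating `L`-multilinear function of `q` rational vector fields which is regular along
all divisors `v` (it takes vector fields regular along `v` to functions regular along `v`) is zero. -/
def FormVanish (K L : Type) [Field K] [Field L] [Algebra K L] (n q : ℕ) : Prop :=
  ∀ ω : AlternatingMap L (Derivation K L L) L (Fin q),
    (∀ v : Place K L, IsDivisorial v n → ∀ D : Fin q → Derivation K L L,
      (∀ j, ∀ f, v.Reg f → v.Reg (D j f)) → v.Reg (ω D)) → ω = 0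

theorem FormVanish.of_tensor {K L : Type} [Field K] [Field L] [Algebra K L] {n q : ℕ} (hq : 1 ≤ q)
    (h : TensorVanish K L n) : FormVanish K L n q := by
  intro ω hω
  have h1 := h q hq ω.toMultilinearMap hω
  ext D
  exact DFunLike.congr_fun h1 D

section

variable {K L : Type} [Field K] [CharZero K] [Field L] [Algebra K L]

/-- the values of vector fields at functions -/
def evl {d : ℕ} (y : Fin d → L) : Derivation K L L →ₗ[L] (Fin d → L) where
  toFun D i := D (y i)
  map_add' _ _ := rfl
  map_smul' _ _ := rfl

/-- `a dy 0 ∧ … ∧ dy (d - 1)` -/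
noncomputable def frm {d : ℕ} (a : L) (y : Fin d → L) :
    AlternatingMap L (Derivation K L L) L (Fin d) :=
  a • (Matrix.detRowAlternating (R := L) (n := Fin d)).compLinearMap (evl y)

theorem frm_apply {d : ℕ} (a : L) (y : Fin d → L) (D : Fin d → Derivation K L L) :
    frm a y D = a * (Matrix.of fun j i => D j (y i)).det := rfl

/-- A canonical form of a subfield of positive transcendence degree gives a nonzero holomorphic
form. -/
theorem form_of_one [IsAlgClosed K] [Algebra.EssFiniteType K L] {n d : ℕ}
    (hn : Algebra.trdeg K L = n) (M : IntermediateField K L) (h : OneType K M d) :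
    ¬ FormVanish K L n d := by
  classical
  have hess : Algebra.EssFiniteType K M := Pool.Agent.N133.CC.ess_any M
  obtain ⟨hM, η, hη', hreg', D0, h0⟩ := h
  have hη : IsPluriForm K M d 1 η := hη'
  have hreg : ∀ u : Place K M, IsDivisorial u d → RegularAt u d η := fun u hu => hreg' u hu
  intro hT
  obtain ⟨B, hB⟩ := exists_isTranscendenceBasis K M
  have hcard := hB.cardinalMk_eq_trdeg
  rw [hM] at hcard
  obtain ⟨φ⟩ : Nonempty (Fin d ≃ B) := by
    rw [← Cardinal.eq, Cardinal.mk_fin]
    exact hcard.symm
  let y : Fin d → M := fun i => (φ i : M)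
  have hy : IsTranscendenceBasis K y := hB.comp_equiv φ
  choose E hE using fun j => exists_dual (k := K) y hy j
  have hE' : ∀ i j, E i (y j) = if i = j then 1 else 0 := by
    intro i j
    rw [hE i j]
    by_cases h : i = j
    · subst h; simp
    · rw [if_neg h, if_neg (Ne.symm h)]
  have ha : η E ≠ 0 := by
    intro h
    apply h0
    rw [pluri_frame hη y hy E hE' D0, h, mul_zero]
  have haL : ((η E : M) : L) ≠ 0 := by
    intro h
    exact ha (Subtype.ext h)
  have hyL : AlgebraicIndependent K (fun i => (y i : L)) :=
    hy.1.map' (f := M.val) M.val.toRingHom.injective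
  obtain ⟨D, hD⟩ := exists_dual_of_indep hyL
  have h1 := hT (frm (K := K) ((η E : M) : L) (fun i => (y i : L))) ?_
  · have h2 := congrArg (fun ω => ω D) h1
    simp only [frm_apply] at h2
    change ((η E : M) : L) * (Matrix.of fun j i => D j (y i : L)).det = 0 at h2
    have h3 : (Matrix.of fun j i => D j (y i : L)) = (1 : Matrix (Fin d) (Fin d) L) := by
      ext j i
      rw [Matrix.of_apply, hD j i, Matrix.one_apply]
      by_cases h : i = j
      · subst h; simp
      · rw [if_neg h, if_neg (Ne.symm h)]
    rw [h3, Matrix.det_one, mul_one] at h2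
    exact haL h2
  · intro w hw X hX
    obtain ⟨Z, z, hz, hZ, hge⟩ := pYLOC K L M d n 1 hM hn (fun y hy => fin_over y hy) η hη hreg y E
      hy hE' w hw
    rw [frm_apply]
    have h2 : (Matrix.of fun j i => X j (y i : L)).det =
        Z.det * (Matrix.of fun j c => X j (z c)).det := by
      have h3 : (Matrix.of fun j i => X j (y i : L)) =
          (Matrix.of fun j c => X j (z c)) * Z.transpose := by
        ext j i
        rw [Matrix.mul_apply, Matrix.of_apply, hZ]
        exact Finset.sum_congr rfl fun c _ => by
          rw [Matrix.of_apply, Matrix.transpose_apply, mul_comm]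
      rw [h3, Matrix.det_mul, Matrix.det_transpose, mul_comm]
    rw [h2, ← mul_assoc]
    have h3 : Ge w 0 (Matrix.of fun j c => X j (z c)).det :=
      ge_det w _ fun j c => hX j (z c) (hz c)
    rw [pow_one] at hge
    have h5 := hge.mul h3
    rw [add_zero] at h5
    exact h5

end

end Pool.Agent.N95.TD
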