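import Pool.Agent.N95.TD.Tra1

/-!
Several groups of points of generic complete intersections: canonical forms.
-/

set_option autoImplicit false
set_option linter.unusedSectionVars false
set_option linter.overlappingInstances false

open FF Module IntermediateField
open Pool.Agent.N111.GI (GenericCI)
open Pool.Agent.N111.FT (aclo mem_aclo subset_aclo aclo_le aclo_mono aclo_closed map_mem_aclo_iff)
open Pool.Agent.W602.GT (coords IsPluri RegAt Divisorial)
open Pool.Agent.N95.PR (ratios adjoin_ratios mult span_mult coords_alg fld base base_closed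
  alg_base trdeg_base finrank_closed ratios_norm ratios_image)

open Pool.Agent.N95.RF

namespace Pool.Agent.N95.TD

theorem one_grp {k K L L' : Type} [Field k] [Field K] [CharZero K] [IsAlgClosed K] [Algebra k K]
    [Field L] [Field L'] [Algebra K L] [Algebra K L'] [Algebra L L'] [IsScalarTower K L L']
    [FiniteDimensional L L'] [Algebra.EssFiniteType K L] {J : Type} [Fintype J] [LinearOrder J]
    {n : ℕ} (hn : Algebra.trdeg K L = n) (X : J → GenericCI k K) (ρ r w : J → ℕ)
    (x : ∀ j, Fin (ρ j) → Fin ((X j).n + 1) → L') (hx : ∀ j i, (X j).Point (x j i))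
    (hdist : ∀ j i i', i ≠ i' → ∃ p q, x j i p * x j i' q ≠ x j i q * x j i' p)
    (hρ : ∀ j a, ρ j ≤ (X j).d a) (hr0 : ∀ j, 0 < r j)
    (hr : ∀ j i, finrank L (adjoin L (ratios (x j i))) ≤ r j)
    (hw : ∀ j, Algebra.trdeg K (adjoin K (⋃ i, ratios (x j i))) = w j) (hpos : ∀ j, 0 < w j)
    (hd : ∀ j, (ρ j + 1) * (X j).m + r j ≤ ∑ a, ((X j).d a + 1) + w j)
    (hsum : ∑ j, w j = n) (hgen : adjoin L (⋃ j, ⋃ i, ratios (x j i)) = ⊤)
    (halg : ∀ z : L', z ∈ aclo K (⋃ j, ⋃ i, ratios (x j i))) : OneType K L n := by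
  classical
  have hess : Algebra.EssFiniteType K L' := Algebra.EssFiniteType.comp K L L'
  have hn' : Algebra.trdeg K L' = n := Pool.Agent.Y172.trdeg_up (K := L) hn
  have hL : CharZero L := charZero_of_injective_algebraMap (algebraMap K L).injective
  have hc : ∀ j i, ∃ c, x j i c ≠ 0 := fun j i => Function.ne_iff.1 (hx j i).ne
  choose c hc using hc
  -- the normalized points
  let x1 : ∀ j, Fin (ρ j) → Fin ((X j).n + 1) → L' := fun j i l => x j i l / x j i (c j i)
  let M : J → IntermediateField K L' := fun j =>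
    adjoin K (Set.range fun q : Fin (ρ j) × Fin ((X j).n + 1) => x1 j q.1 q.2)
  have hc1 : ∀ j i, x1 j i (c j i) = 1 := fun j i => div_self (hc j i)
  have hMsub : ∀ j i, ratios (x j i) ⊆ (M j : Set L') := fun j i => by
    have h1 : adjoin K (ratios (x j i)) ≤ M j := by
      rw [adjoin_ratios (hc j i), adjoin_le_iff]
      rintro _ ⟨l, rfl⟩
      exact subset_adjoin _ _ ⟨(i, l), rfl⟩
    exact fun a ha => h1 (subset_adjoin _ _ ha)
  have hM : ∀ j, adjoin K (⋃ i, ratios (x j i)) = M j := fun j => by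
    apply le_antisymm
    · exact adjoin_le_iff.2 (Set.iUnion_subset fun i => hMsub j i)
    · rw [adjoin_le_iff]
      rintro _ ⟨⟨i, l⟩, rfl⟩
      exact subset_adjoin _ _ (Set.mem_iUnion.2 ⟨i, l, c j i, hc j i, rfl⟩)
  have hML : ∀ j i, adjoin L (ratios (x j i)) = fld L (x1 j i) := fun j i => adjoin_ratios (hc j i)
  have htr : ∀ j, Algebra.trdeg K (M j) = w j := fun j => by
    rw [← hM j]
    exact hw j
  let y : ∀ j, Fin (ρ j) → Fin ((X j).n + 1) → M j := fun j i l =>
    ⟨x1 j i l, subset_adjoin _ _ ⟨(i, l), rfl⟩⟩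
  have hytop : ∀ j, adjoin K (Set.range fun q : Fin (ρ j) × Fin ((X j).n + 1) => y j q.1 q.2) =
      ⊤ := by
    intro j
    apply IntermediateField.map_injective (M j).val
    rw [← AlgHom.fieldRange_eq_map, IntermediateField.fieldRange_val, IntermediateField.adjoin_map]
    congr 1
    rw [← Set.range_comp]
    rfl
  have hyc : ∀ j i, y j i (c j i) = 1 := fun j i => Subtype.ext (hc1 j i)
  have hev : ∀ j i (e : ℕ) (P : MvPolynomial (Fin ((X j).n + 1)) K), P.IsHomogeneous e →
      MvPolynomial.aeval (x j i) P = 0 → MvPolynomial.aeval (y j i) P = 0 := by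
    intro j i e P hP h
    apply (algebraMap (M j) L').injective
    rw [map_zero]
    have h1 : algebraMap (M j) L' (MvPolynomial.aeval (y j i) P) =
        MvPolynomial.aeval (fun l => x j i l / x j i (c j i)) P := by
      rw [← MvPolynomial.aeval_algebraMap_apply]
      rfl
    rw [h1, Pool.Agent.N111.GI.aeval_div hP, h, mul_zero]
  -- the forms
  have hform : ∀ j, ∃ ω : (Fin (w j) → Derivation K (M j) (M j)) → M j, IsPluri 1 ω ∧
      (∃ E, ω E ≠ 0) ∧ ∀ (f : Fin (ρ j) → Fin (r j - 1) → Fin ((X j).n + 1))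
        (P : Place K (M j)), Divisorial (w j) P →
          RegAt P (fun D => (∏ i, ∏ l, y j i (f i l)) * ω D) := by
    intro j
    exact form_ci (k0 := algebraicClosure k K) (K := K) (L := M j)
      (ex := r j - 1) (X j).V_dim (X j).F_form (X j).coeff_ne (X j).generic.algebraicClosure
      (hpos j) (htr j) (x := y j) (c := c j) (hyc j) (fun i f hf => by
        obtain ⟨e, he⟩ := (X j).V_form f hf
        exact hev j i e _ (he.map _) ((hx j i).mem_V f hf))
      (fun i a => hev j i _ _ ((X j).F_form a) ((hx j i).mem_F a))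
      (fun i i' hii => by
        obtain ⟨p, q, hpq⟩ := hdist j i i' hii
        refine ⟨(p, q), ?_⟩
        rw [eval_lf]
        intro h0
        have h0' := congrArg Subtype.val h0
        change x j i p / x j i (c j i) * (x j i' q / x j i' (c j i')) -
          x j i q / x j i (c j i) * (x j i' p / x j i' (c j i')) = 0 at h0'
        apply hpq
        have h1 := hc j i
        have h2 := hc j i'
        field_simp at h0'
        rw [mul_zero] at h0'
        exact sub_eq_zero.1 h0') (hρ j)
      (fun z => by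
        have h1 : z ∈ adjoin K (Set.range fun q : Fin (ρ j) × Fin ((X j).n + 1) =>
            y j q.1 q.2) := by
          rw [hytop]
          exact mem_top
        exact isAlgebraic_algebraMap (⟨z, h1⟩ : adjoin K (Set.range
          fun q : Fin (ρ j) × Fin ((X j).n + 1) => y j q.1 q.2)))
      (by
        have h1 := hr0 j
        have e1 : (ρ j + 1) * (X j).m + 1 + (r j - 1) = (ρ j + 1) * (X j).m + r j := by
          omega
        rw [e1]
        exact hd j)
  choose ω hω hne hreg using hform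
  obtain ⟨Ω, hΩ, hΩne, hΩreg⟩ := prod_fam
    (G := fun j => Fin (ρ j) → Fin (r j - 1) → Fin ((X j).n + 1)) hn' M htr
    (fun j => ⟨Set.range fun q : Fin (ρ j) × Fin ((X j).n + 1) => y j q.1 q.2,
      Set.finite_range _, hytop j⟩) hsum
    (fun z => aclo_le (Set.iUnion_subset fun j => Set.iUnion_subset fun i a ha =>
      subset_aclo _ (Set.mem_iUnion.2 ⟨j, hMsub j i ha⟩)) (halg z))
    (fun j g => ∏ i, ∏ l, y j i (g i l)) ω hω hne (fun j g P hP => hreg j g P hP)
  -- all points together
  let x2 : ∀ p : Σ j, Fin (ρ j), Fin ((X p.1).n + 1) → L' := fun p => x1 p.1 p.2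
  have hmult : ∀ g : ∀ p : Σ j, Fin (ρ j), Fin (r p.1 - 1) → Fin ((X p.1).n + 1),
      mult (m := fun p : Σ j, Fin (ρ j) => r p.1 - 1) x2 g =
        ∏ j, ((∏ i, ∏ l, y j i (g ⟨j, i⟩ l) : M j) : L') := by
    intro g
    rw [mult, Fintype.prod_sigma]
    refine Finset.prod_congr rfl fun j _ => ?_
    change _ = (M j).val (∏ i, ∏ l, y j i (g ⟨j, i⟩ l))
    rw [map_prod]
    refine Finset.prod_congr rfl fun i _ => ?_
    rw [map_prod]
    rfl
  have hgen' : adjoin L (⋃ p : Σ j, Fin (ρ j), Set.range (x2 p)) = ⊤ := by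
    rw [eq_top_iff, ← hgen, adjoin_le_iff]
    refine Set.iUnion_subset fun j => Set.iUnion_subset fun i => ?_
    intro a ha
    have h1 : a ∈ adjoin L (ratios (x j i)) := subset_adjoin _ _ ha
    rw [hML j i] at h1
    exact adjoin.mono L _ _ (Set.subset_iUnion (fun p : Σ j, Fin (ρ j) => Set.range (x2 p))
      ⟨j, i⟩) h1
  have hr' : ∀ p : Σ j, Fin (ρ j), finrank L (fld L (x2 p)) ≤ r p.1 := fun p => by
    have h1 := hr p.1 p.2
    rw [hML] at h1
    exact h1
  refine one_abs hn (mult (m := fun p : Σ j, Fin (ρ j) => r p.1 - 1) x2) hΩ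
    (fun g P hP => ?_) hΩne
    (span_mult K (j0 := fun p : Σ j, Fin (ρ j) => c p.1 p.2) (fun p => hc1 p.1 p.2) hgen'
      fun p => by
        have h1 := hr' p
        have h2 := hr0 p.1
        omega)
  have h1 := hΩreg (fun j i l => g ⟨j, i⟩ l) P hP
  have h2 : (fun D => mult (m := fun p : Σ j, Fin (ρ j) => r p.1 - 1) x2 g * Ω D) =
      fun D => (∏ j, ((∏ i, ∏ l, y j i (g ⟨j, i⟩ l) : M j) : L')) * Ω D := by
    funext D
    rw [hmult]
  rw [h2]
  exact h1

section

variable {k K L A : Type} [Field k] [Field K] [CharZero K] [IsAlgClosed K] [Algebra k K] [Field L]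
  [Field A] [Algebra K L] [Algebra K A] [Algebra L A] [IsScalarTower K L A]

/-- **Fibrations over varieties of general type.** -/
theorem one_fib [Normal L A] [Algebra.EssFiniteType K L] {J : Type} [Fintype J] [LinearOrder J]
    (X : J → GenericCI k K) (ρ r w : J → ℕ)
    (x : ∀ j, Fin (ρ j) → Fin ((X j).n + 1) → A) (hx : ∀ j i, (X j).Point (x j i))
    (hdist : ∀ j i i', i ≠ i' → ∃ p q, x j i p * x j i' q ≠ x j i q * x j i' p)
    (hρ : ∀ j a, ρ j ≤ (X j).d a) (hr0 : ∀ j, 0 < r j)
    (hr : ∀ j i, finrank L (adjoin L (ratios (x j i))) ≤ r j)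
    (hw : ∀ j, Algebra.trdeg K (adjoin K (⋃ i, ratios (x j i))) = w j) (hpos : ∀ j, 0 < w j)
    (hd : ∀ j, (ρ j + 1) * (X j).m + r j ≤ ∑ a, ((X j).d a + 1) + w j)
    (hind : Algebra.trdeg K (adjoin K (⋃ j, ⋃ i, ratios (x j i))) = (∑ j, w j : ℕ))
    (hconj : ∀ (σ : A ≃ₐ[L] A) j i, ∀ z ∈ ratios (x j i),
      σ z ∈ aclo K (⋃ j, ⋃ i, ratios (x j i))) :
    OneType K (base K L (⋃ j, ⋃ i, ratios (x j i))) (∑ j, w j) := by
  classical
  obtain ⟨S, hS⟩ : ∃ S : Set A, S = ⋃ j, ⋃ i, ratios (x j i) := ⟨_, rfl⟩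
  rw [← hS] at hind hconj ⊢
  have hconj' : ∀ (σ : A ≃ₐ[L] A), ∀ z ∈ S, σ z ∈ aclo K S := by
    intro σ z hz
    rw [hS, Set.mem_iUnion] at hz
    obtain ⟨j, hj⟩ := hz
    obtain ⟨i, hi⟩ := Set.mem_iUnion.1 hj
    exact hconj σ j i z hi
  let L₁ := base K L S
  have hess : Algebra.EssFiniteType K L₁ := Pool.Agent.N133.CC.ess_any L₁
  have halg : ∀ z ∈ aclo K S, IsAlgebraic L₁ z := fun z hz => alg_base hconj' hz
  have hn : Algebra.trdeg K L₁ = (∑ j, w j : ℕ) := by
    rw [← hind]
    exact trdeg_base halg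
  have hc : ∀ j i, ∃ c, x j i c ≠ 0 := fun j i => Function.ne_iff.1 (hx j i).ne
  choose c hc using hc
  -- the extension generated by the values
  have hSfin : S.Finite := by
    rw [hS]
    refine Set.finite_iUnion fun j => Set.finite_iUnion fun i => ?_
    refine (Set.finite_range fun p : Fin ((X j).n + 1) × Fin ((X j).n + 1) =>
      x j i p.1 / x j i p.2).subset ?_
    rintro z ⟨l, l', -, rfl⟩
    exact ⟨(l, l'), rfl⟩
  have hSint : ∀ z ∈ S, IsIntegral L₁ z := fun z hz => (halg z (subset_aclo S hz)).isIntegral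
  have hfS : Finite S := hSfin
  let L' : IntermediateField L₁ A := adjoin L₁ S
  have hfd : FiniteDimensional L₁ L' := finiteDimensional_adjoin hSint
  have hst : IsScalarTower K L₁ L' := inferInstance
  have hst2 : IsScalarTower K L' A := by
    refine IsScalarTower.of_algebraMap_eq fun z => ?_
    rw [IsScalarTower.algebraMap_apply K L₁ L', ← IsScalarTower.algebraMap_apply L₁ L' A,
      ← IsScalarTower.algebraMap_apply K L₁ A]
  have hsub : ∀ j i, ratios (x j i) ⊆ S := fun j i => by
    rw [hS]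
    exact (Set.subset_iUnion (fun i => ratios (x j i)) i).trans
      (Set.subset_iUnion (fun j => ⋃ i, ratios (x j i)) j)
  let x' : ∀ j, Fin (ρ j) → Fin ((X j).n + 1) → L' := fun j i l =>
    ⟨x j i l / x j i (c j i), subset_adjoin _ _ (hsub j i ⟨l, c j i, hc j i, rfl⟩)⟩
  have hx'A : ∀ j i l, algebraMap L' A (x' j i l) = x j i l / x j i (c j i) := fun j i l => rfl
  have hev : ∀ j i (e : ℕ) (P : MvPolynomial (Fin ((X j).n + 1)) K), P.IsHomogeneous e →
      MvPolynomial.aeval (x j i) P = 0 → MvPolynomial.aeval (x' j i) P = 0 := by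
    intro j i e P hP h
    apply (algebraMap L' A).injective
    rw [map_zero]
    have h1 : algebraMap L' A (MvPolynomial.aeval (x' j i) P) =
        MvPolynomial.aeval (fun l => x j i l / x j i (c j i)) P := by
      rw [← MvPolynomial.aeval_algebraMap_apply]
      rfl
    rw [h1, Pool.Agent.N111.GI.aeval_div hP, h, mul_zero]
  have hx' : ∀ j i, (X j).Point (x' j i) := fun j i =>
    { ne := fun h => by
        have h1 := congrArg (algebraMap L' A) (congrFun h (c j i))
        rw [hx'A, div_self (hc j i), Pi.zero_apply, map_zero] at h1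
        exact one_ne_zero h1
      mem_V := fun f hf => by
        obtain ⟨e, he⟩ := (X j).V_form f hf
        exact hev j i e _ (he.map _) ((hx j i).mem_V f hf)
      mem_F := fun a => hev j i _ _ ((X j).F_form a) ((hx j i).mem_F a) }
  have hdist' : ∀ j i i', i ≠ i' → ∃ p q, x' j i p * x' j i' q ≠ x' j i q * x' j i' p := by
    intro j i i' hij
    obtain ⟨p, q, hpq⟩ := hdist j i i' hij
    refine ⟨p, q, fun h => hpq ?_⟩
    have h1 := congrArg (algebraMap L' A) h
    rw [map_mul, map_mul, hx'A, hx'A, hx'A, hx'A] at h1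
    have h2 := hc j i
    have h3 := hc j i'
    field_simp at h1
    exact h1
  have hrat : ∀ j i, algebraMap L' A '' ratios (x' j i) = ratios (x j i) := fun j i => by
    rw [ratios_image, ← ratios_norm (hc j i)]
    rfl
  -- the images of the fields generated by the values
  have hadj : ∀ (R : Type) [Field R] [Algebra R L'] [Algebra R A] [IsScalarTower R L' A]
      (T : Set L'), (adjoin R T).map (IsScalarTower.toAlgHom R L' A) =
        adjoin R (algebraMap L' A '' T) := by
    intro R _ _ _ _ T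
    rw [adjoin_map]
    rfl
  have hUj : ∀ j, algebraMap L' A '' (⋃ i, ratios (x' j i)) = ⋃ i, ratios (x j i) := fun j => by
    rw [Set.image_iUnion]
    exact Set.iUnion_congr (hrat j)
  have hUn : algebraMap L' A '' (⋃ j, ⋃ i, ratios (x' j i)) = S := by
    rw [Set.image_iUnion, hS]
    exact Set.iUnion_congr hUj
  have hst3 : IsScalarTower L₁ L' A := inferInstance
  refine one_grp (L := L₁) (L' := L') hn X ρ r w x' hx' hdist' hρ hr0 (fun j i => ?_)
    (fun j => ?_) hpos hd rfl ?_ ?_
  · -- the degrees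
    have h1 : finrank L₁ (adjoin L₁ (ratios (x' j i))) =
        finrank L₁ (adjoin L₁ (ratios (x j i))) := by
      rw [← hrat j i, ← hadj L₁]
      exact ((adjoin L₁ (ratios (x' j i))).equivMap _).toLinearEquiv.finrank_eq
    rw [h1]
    have hfr : Finite (ratios (x j i)) := hSfin.subset (hsub j i)
    have i1 : FiniteDimensional L₁ (adjoin L₁ (ratios (x j i))) :=
      finiteDimensional_adjoin fun z hz => hSint z (hsub j i hz)
    have i2 : FiniteDimensional L (adjoin L (ratios (x j i))) :=
      finiteDimensional_adjoin fun z hz => (hSint z (hsub j i hz)).tower_top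
    exact (finrank_closed (K := K) (fun z hz => base_closed hz)).trans (hr j i)
  · rw [← hw j, ← hUj j, ← hadj K]
    exact ((adjoin K (⋃ i, ratios (x' j i))).equivMap _).trdeg_eq
  · apply map_injective (IsScalarTower.toAlgHom L₁ L' A)
    rw [hadj L₁, hUn, ← AlgHom.fieldRange_eq_map]
    ext z
    constructor
    · intro hz
      exact ⟨⟨z, hz⟩, rfl⟩
    · rintro ⟨y, rfl⟩
      exact y.2
  · intro z
    rw [← map_mem_aclo_iff (IsScalarTower.toAlgHom K L' A)]
    have h1 : (IsScalarTower.toAlgHom K L' A) '' (⋃ j, ⋃ i, ratios (x' j i)) = S := hUn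
    rw [h1]
    -- `L'` is contained in the algebraic closure
    have h3 : ∀ y : L₁, algebraMap L₁ A y ∈ aclo K S := fun y => y.2
    let N : IntermediateField L₁ A :=
      { (aclo K S).toSubfield with
        algebraMap_mem' := h3 }
    have h4 : L' ≤ N := adjoin_le_iff.2 (subset_aclo S)
    exact h4 z.2

end

end Pool.Agent.N95.TD
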