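import Pool.Agent.N95.TD.Frm

/-!
Multi-valued maps from varieties without holomorphic forms to generic complete intersections and
the varieties which are finite over their symmetric powers.
-/

set_option autoImplicit false
set_option linter.unusedSectionVars false
set_option linter.overlappingInstances false

open FF Module IntermediateField
open Pool.Agent.N111.GI (GenericCI)
open Pool.Agent.N111.FT (aclo mem_aclo subset_aclo)
open Pool.Agent.N95.PR (ratios base)
open Pool.Agent.N95.GH (OnSet)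
open Pool.Agent.N95.RF (SymMap SymCor)

namespace Pool.Agent.N95.TD

theorem arith1 {S P q m s r w : ℕ} (hm : 1 ≤ m) (hqP : q ≤ P) (hqw : q ≤ w) (hs : s ≤ r)
    (h : (P + 1) * m + r ≤ S + P) : (q + 1) * m + s ≤ S + w := by
  obtain ⟨t, rfl⟩ := Nat.exists_eq_add_of_le hqP
  have h1 : (q + t + 1) * m = (q + 1) * m + t * m := by ring
  have h2 : t ≤ t * m := Nat.le_mul_of_pos_right t hm
  omega

section

variable {k K L : Type} [Field k] [Field K] [CharZero K] [IsAlgClosed K] [Algebra k K] [Field L]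
  [Algebra K L] {X : GenericCI k K} {r : ℕ}

/-- **A rational map to a symmetric power with image of dimension `w ≥ 1` gives a holomorphic
`w`-form.** -/
theorem sym_form [Algebra.EssFiniteType K L] {n w : ℕ} (hn : Algebra.trdeg K L = n)
    (f : SymMap k K L X r) (hw : Algebra.trdeg K (adjoin K f.values) = w) (hw1 : 1 ≤ w)
    (hdeg : ∀ a, min r w ≤ X.d a) (hS : (min r w + 1) * X.m + r ≤ ∑ a, (X.d a + 1) + w) :
    ¬ FormVanish K L n w :=
  form_of_one hn _ (one_base f hdeg hw hw1 hS)

theorem sym_const' [Algebra.EssFiniteType K L] {n : ℕ} (hn : Algebra.trdeg K L = n)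
    (hT : ∀ q, 1 ≤ q → q ≤ n → FormVanish K L n q) (hm : 1 ≤ X.m) (hdeg : ∀ a, min r n ≤ X.d a)
    (hS : (min r n + 1) * X.m + r ≤ ∑ a, (X.d a + 1) + min r n) {s : ℕ} (hs : s ≤ r)
    (f : SymMap k K L X s) {z : AlgebraicClosure L} (hz : z ∈ f.values) :
    ∃ c : K, algebraMap K (AlgebraicClosure L) c = z := by
  have hle := trdeg_le_of_injective (adjoin K f.values).val
    (adjoin K f.values).val.toRingHom.injective
  rw [Pool.Agent.TH466.QG.trdeg_alg (k := K) (E := L) (K := AlgebraicClosure L), hn] at hle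
  obtain ⟨w, hw⟩ := Cardinal.lt_aleph0.1 (hle.trans_lt Cardinal.natCast_lt_aleph0)
  rw [hw] at hle
  have hwn : w ≤ n := by exact_mod_cast hle
  rcases Nat.eq_zero_or_pos w with rfl | hpos
  · exact const_of_zero (by rw [hw, Nat.cast_zero]) hz
  · exfalso
    have hq : min s w ≤ min r n := min_le_min hs hwn
    exact sym_form hn f hw hpos (fun a => hq.trans (hdeg a))
      (arith1 hm hq (min_le_right _ _) hs hS) (hT w hpos hwn)

end

section

variable {k K : Type} [Field k] [Field K] [Algebra k K] [IsAlgClosed K] [CharZero K]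
  {X : GenericCI k K} {L L' : Type} [Field L] [Algebra K L] [Field L'] [Algebra K L']
  [Algebra L L'] [IsScalarTower K L L'] [FiniteDimensional L L']

theorem hcov_const [Algebra.EssFiniteType K L] {n : ℕ} (hn : Algebra.trdeg K L = n)
    (hT : ∀ q, 1 ≤ q → q ≤ n → FormVanish K L n q) (hm : 1 ≤ X.m) {R : ℕ}
    (hdeg : ∀ a, min R n ≤ X.d a)
    (hS : (min R n + 1) * X.m + R ≤ ∑ a, (X.d a + 1) + min R n) {s : ℕ}
    (hs : finrank L L' * s ≤ R) (f : SymMap k K L' X s) {v : L'}
    (hv : algebraMap L' (AlgebraicClosure L') v ∈ aclo K f.values) :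
    ∃ c : K, algebraMap K L' c = v := by
  have h0 : ∀ z ∈ f.values, ∃ c : K, algebraMap K (AlgebraicClosure L') c = z := by
    intro z hz
    obtain ⟨g, e, he⟩ := descend (L := L) f
    obtain ⟨c, hc⟩ := sym_const' hn hT hm hdeg hS hs g (he z hz)
    refine ⟨c, ?_⟩
    apply e.toRingHom.injective
    change e _ = e _
    rw [← hc]
    exact e.commutes c
  obtain ⟨c, hc⟩ := const_of_aclo h0 hv
  refine ⟨c, ?_⟩
  apply (algebraMap L' (AlgebraicClosure L')).injective
  rw [← hc, ← IsScalarTower.algebraMap_apply]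

/-- **Multi-valued maps to generic complete intersections** -/
theorem hpt_const [Algebra.EssFiniteType K L] {n : ℕ} (hn : Algebra.trdeg K L = n)
    (hT : ∀ q, 1 ≤ q → q ≤ n → FormVanish K L n q) (hm : 1 ≤ X.m) {R : ℕ}
    (hdeg : ∀ a, min R n ≤ X.d a)
    (hS : (min R n + 1) * X.m + R ≤ ∑ a, (X.d a + 1) + min R n)
    (hr : finrank L L' ≤ R) {x : Fin (X.n + 1) → L'} (hx : X.Point x) {v : L'}
    (hv : v ∈ ratios x) : ∃ c : K, algebraMap K L' c = v := by
  obtain ⟨f, hf⟩ := pt_map hx
  exact hcov_const (L := L) hn hT hm hdeg hS (by rwa [mul_one]) f (subset_aclo _ (hf v hv))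

/-- **Multi-valued maps to varieties which are finite over symmetric powers** -/
theorem hmap_const [Algebra.EssFiniteType K L] {n : ℕ} (hn : Algebra.trdeg K L = n)
    (hT : ∀ q, 1 ≤ q → q ≤ n → FormVanish K L n q) (hm : 1 ≤ X.m) {R : ℕ}
    (hdeg : ∀ a, min R n ≤ X.d a)
    (hS : (min R n + 1) * X.m + R ≤ ∑ a, (X.d a + 1) + min R n) {M : ℕ}
    {Φ : Set (MvPolynomial (Fin (M + 1)) K)} {r : ℕ} (C : SymCor Φ X r)
    (hr : finrank L L' * r ≤ R) {z : Fin (M + 1) → L'} (hz : OnSet Φ z) {i j : Fin (M + 1)}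
    (hj : z j ≠ 0) : ∃ c : K, algebraMap K L' c = z i / z j := by
  obtain ⟨s, f, hs, h⟩ := lift_pt C hz
  exact hcov_const (L := L) hn hT hm hdeg hS ((Nat.mul_le_mul_left _ hs).trans hr) f (h i j hj)

end

end Pool.Agent.N95.TD
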