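import Pool.Agent.N95.RF.Cor2
import Pool.Agent.TH466.QT.Tens

/-!
Rational maps from varieties without tensor differentials to the symmetric powers of generic complete
intersections.
-/

set_option autoImplicit false
set_option linter.unusedSectionVars false
set_option linter.overlappingInstances false

open FF Module IntermediateField LinearAlgebra.Projectivization
open Pool.Agent.N111.GI (GenericCI)
open Pool.Agent.N111.FT (aclo mem_aclo subset_aclo aclo_le aclo_mono aclo_closed map_mem_aclo_iff)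
open Pool.Agent.W602.GT (GeneralType coords)
open Pool.Agent.N95.PR (ratios base)
open Pool.Agent.N95.GH (OnSet BiHom Rel isAlgClosed_aclo)
open Pool.Agent.N95.RF (SymMap SymCor arith point_smul rel_smul)
open Pool.Agent.W619.TW (TensorVanish)

namespace Pool.Agent.N95.TD

section

variable {K L : Type} [Field K] [CharZero K] [IsAlgClosed K] [Field L] [Algebra K L]

/-- a variety with a dominant rational map to a variety of general type has tensor differentials -/
theorem not_vanish [Algebra.EssFiniteType K L] {n w : ℕ} (hn : Algebra.trdeg K L = n)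
    (M : IntermediateField K L) (hw : 1 ≤ w) (h : GeneralType K M w) : ¬ TensorVanish K L n := by
  have hess : Algebra.EssFiniteType K M := Pool.Agent.N133.CC.ess_any M
  obtain ⟨htr, m, hm, ω, hω, hreg, D, hD0, -⟩ := h
  exact Pool.Agent.TH466.QT.not_vanish hn M htr hw hm (ω 0) (hω 0) (fun u hu => hreg u hu 0) D hD0

/-- algebraic elements are constants -/
theorem const_of_alg {A : Type} [Field A] [Algebra K A] {z : A} (hz : IsAlgebraic K z) :
    ∃ c : K, algebraMap K A c = z := by
  have h1 : Algebra.IsAlgebraic K (algebraicClosure K A) := inferInstance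
  have h2 : Algebra.IsIntegral K (algebraicClosure K A) := inferInstance
  obtain ⟨c, hc⟩ := (IsAlgClosed.algebraMap_bijective_of_isIntegral (k := K)
    (K := algebraicClosure K A)).2 ⟨z, mem_algebraicClosure_iff.2 hz⟩
  exact ⟨c, congrArg Subtype.val hc⟩

theorem const_of_zero {A : Type} [Field A] [Algebra K A] {S : Set A}
    (h : Algebra.trdeg K (adjoin K S) = 0) {z : A} (hz : z ∈ S) :
    ∃ c : K, algebraMap K A c = z := by
  have h1 : Algebra.IsAlgebraic K (adjoin K S) := trdeg_eq_zero_iff.1 h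
  have h2 : IsAlgebraic K (⟨z, subset_adjoin K S hz⟩ : adjoin K S) := h1.isAlgebraic _
  exact const_of_alg (h2.algebraMap (A := A))

/-- if all elements of a set are constants then so are the elements algebraic over them -/
theorem const_of_aclo {A : Type} [Field A] [Algebra K A] {S : Set A}
    (h : ∀ z ∈ S, ∃ c : K, algebraMap K A c = z) {z : A} (hz : z ∈ aclo K S) :
    ∃ c : K, algebraMap K A c = z := by
  have h1 : adjoin K S = ⊥ := by
    rw [adjoin_eq_bot_iff]
    intro z hz
    obtain ⟨c, hc⟩ := h z hz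
    exact mem_bot.2 ⟨c, hc⟩
  have h2 : Algebra.IsAlgebraic K (adjoin K S) := by
    rw [h1]
    infer_instance
  exact const_of_alg ((mem_aclo.1 hz).restrictScalars K)

end

section

variable {k K L : Type} [Field k] [Field K] [CharZero K] [IsAlgClosed K] [Algebra k K] [Field L]
  [Algebra K L] {X : GenericCI k K} {r : ℕ}

/-- **Rational maps to symmetric powers from varieties without tensor differentials are constant.** -/
theorem sym_const [Algebra.EssFiniteType K L] {n : ℕ} (hn : Algebra.trdeg K L = n)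
    (hT : TensorVanish K L n) (hm : 1 ≤ X.m) (hdeg : ∀ a, min r n ≤ X.d a)
    (hS : (min r n + 1) * X.m + 2 * r ≤ ∑ a, (X.d a + 1) + min r n) {s : ℕ} (hs : s ≤ r)
    (f : SymMap k K L X s) {z : AlgebraicClosure L} (hz : z ∈ f.values) :
    ∃ c : K, algebraMap K (AlgebraicClosure L) c = z := by
  have hle := trdeg_le_of_injective (adjoin K f.values).val
    (adjoin K f.values).val.toRingHom.injective
  rw [Pool.Agent.TH466.QG.trdeg_alg (k := K) (E := L) (K := AlgebraicClosure L), hn] at hle
  obtain ⟨w, hw⟩ := Cardinal.lt_aleph0.1 (hle.trans_lt Cardinal.natCast_lt_aleph0)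
  rw [hw] at hle
  have hwn : w ≤ n := by exact_mod_cast hle
  rcases Nat.eq_zero_or_pos w with rfl | hpos
  · exact const_of_zero (by rw [hw, Nat.cast_zero]) hz
  · exfalso
    have hq : min s w ≤ min r n := min_le_min hs hwn
    have h1 := f.gt_base' (w := w) (fun a => hq.trans (hdeg a)) hw hpos
      (arith hm hq (min_le_right _ _) hs hS)
    exact not_vanish hn _ hpos h1 hT

end

section

variable {k K : Type} [Field k] [Field K] [Algebra k K] [IsAlgClosed K] [CharZero K] {M : ℕ}
  {Φ : Set (MvPolynomial (Fin (M + 1)) K)} {X : GenericCI k K} {r : ℕ}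

/-- **The rational maps to the symmetric powers given by points.** -/
theorem lift_pt (C : SymCor Φ X r) {E : Type} [Field E] [Algebra K E] {z : Fin (M + 1) → E}
    (hz : OnSet Φ z) :
    ∃ (s : ℕ) (f : SymMap k K E X s), s ≤ r ∧
      ∀ i j, z j ≠ 0 → algebraMap E (AlgebraicClosure E) (z i / z j) ∈ aclo K f.values := by
  classical
  let Ω := AlgebraicClosure E
  let zΩ : Fin (M + 1) → Ω := fun i => algebraMap E Ω (z i)
  have hzΩ : OnSet Φ zΩ := by
    obtain ⟨j, hj⟩ := Function.ne_iff.1 hz.1
    refine ⟨fun h => hj ?_, fun f hf => ?_⟩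
    · have h1 := congrFun h j
      exact (map_eq_zero (algebraMap E Ω)).1 h1
    · exact (MvPolynomial.aeval_algebraMap_apply Ω z f).trans (by rw [hz.2 f hf, map_zero])
  -- the points of the fibre
  let PP : Set (ℙ Ω (Fin (X.n + 1) → Ω)) := {q | X.Point q.rep ∧ Rel C.Γ zΩ q.rep}
  have hmem : ∀ (x : Fin (X.n + 1) → Ω) (hx : X.Point x), Rel C.Γ zΩ x →
      Projectivization.mk Ω x hx.ne ∈ PP := by
    intro x hx h
    obtain ⟨c, hc⟩ := Projectivization.exists_smul_eq_mk_rep Ω x hx.ne
    change X.Point (Projectivization.mk Ω x hx.ne).rep ∧ Rel C.Γ zΩ _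
    rw [← hc]
    exact ⟨point_smul hx c.ne_zero, rel_smul C.bihom h _⟩
  have hfew : ∀ g : Fin (r + 1) → PP, ¬ Function.Injective g := by
    intro g hg
    obtain ⟨i, j, hij, c, hc⟩ := C.few Ω zΩ hzΩ (fun l => (g l : ℙ Ω (Fin (X.n + 1) → Ω)).rep)
      fun l => (g l).2
    apply hij
    apply hg
    apply Subtype.ext
    rw [← Projectivization.mk_rep (g i : ℙ Ω (Fin (X.n + 1) → Ω)),
      ← Projectivization.mk_rep (g j : ℙ Ω (Fin (X.n + 1) → Ω)), Projectivization.mk_eq_mk_iff']
    exact ⟨c, hc.symm⟩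
  have hfin : Finite PP := by
    by_contra hcon
    have hinf : Infinite PP := not_finite_iff_infinite.1 hcon
    obtain ⟨g⟩ : Nonempty (ℕ ↪ PP) := ⟨Infinite.natEmbedding PP⟩
    exact hfew (fun l => g l) fun a b h => Fin.ext (g.injective h)
  have hft : Fintype PP := Fintype.ofFinite PP
  have hcard : Fintype.card PP ≤ r := by
    by_contra hcon
    push Not at hcon
    have h1 : Fintype.card (Fin (r + 1)) ≤ Fintype.card PP := by
      rw [Fintype.card_fin]
      exact hcon
    obtain ⟨g⟩ := Function.Embedding.nonempty_of_card_le h1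
    exact hfew g g.injective
  let e : Fin (Fintype.card PP) ≃ PP := (Fintype.equivFin PP).symm
  let p : Fin (Fintype.card PP) → Fin (X.n + 1) → Ω := fun l => (e l : ℙ Ω (Fin (X.n + 1) → Ω)).rep
  -- the conjugates of the points
  have hconj : ∀ (σ : Ω ≃ₐ[E] Ω) (x : Fin (X.n + 1) → Ω), X.Point x → Rel C.Γ zΩ x →
      X.Point (fun i => σ (x i)) ∧ Rel C.Γ zΩ (fun i => σ (x i)) := by
    intro σ x hx h
    let σK : Ω →ₐ[K] Ω := (σ : Ω →ₐ[E] Ω).restrictScalars K
    have h1 : ∀ {τ : Type} (u : τ → Ω) (P : MvPolynomial τ K), MvPolynomial.aeval u P = 0 →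
        MvPolynomial.aeval (fun i => σ (u i)) P = 0 := by
      intro τ u P hP
      have h2 : σK.comp (MvPolynomial.aeval u) = MvPolynomial.aeval fun i => σ (u i) := by
        apply MvPolynomial.algHom_ext
        intro i
        rw [AlgHom.comp_apply, MvPolynomial.aeval_X, MvPolynomial.aeval_X]
        rfl
      rw [← h2, AlgHom.comp_apply, hP, map_zero]
    refine ⟨{ ne := fun h0 => hx.ne ?_, mem_V := fun f hf => h1 _ _ (hx.mem_V f hf),
              mem_F := fun a => h1 _ _ (hx.mem_F a) }, fun T hT => ?_⟩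
    · funext i
      have h2 : σ (x i) = 0 := congrFun h0 i
      exact (map_eq_zero σ).1 h2
    · have h2 := h1 _ _ (h T hT)
      have h3 : (fun i => σ ((Sum.elim zΩ x) i)) = Sum.elim zΩ fun i => σ (x i) := by
        funext i
        rcases i with i | i
        · exact σ.commutes (z i)
        · rfl
      rwa [h3] at h2
  have hpi : ∀ (σ : Ω ≃ₐ[E] Ω) (l : Fin (Fintype.card PP)), ∃ l', ∃ c : Ω,
      (fun i => σ (p l i)) = c • p l' := by
    intro σ l
    obtain ⟨h1, h2⟩ := hconj σ (p l) (e l).2.1 (e l).2.2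
    refine ⟨e.symm ⟨_, hmem _ h1 h2⟩, ?_⟩
    obtain ⟨c, hc⟩ := Projectivization.exists_smul_eq_mk_rep Ω _ h1.ne
    refine ⟨(c : Ω)⁻¹, ?_⟩
    change _ = (c : Ω)⁻¹ • (e (e.symm ⟨_, hmem _ h1 h2⟩) : ℙ Ω (Fin (X.n + 1) → Ω)).rep
    rw [Equiv.apply_symm_apply]
    change _ = (c : Ω)⁻¹ • (Projectivization.mk Ω (fun i => σ (p l i)) h1.ne).rep
    rw [← hc]
    change _ = (c : Ω)⁻¹ • ((c : Ω) • fun i => σ (p l i))
    rw [smul_smul, inv_mul_cancel₀ c.ne_zero, one_smul]
  have hst : ∀ σ : Ω ≃ₐ[E] Ω, ∃ π : Equiv.Perm (Fin (Fintype.card PP)),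
      ∀ l, ∃ c : Ω, (fun i => σ (p l i)) = c • p (π l) := by
    intro σ
    choose π hπ using hpi σ
    have hinj : Function.Injective π := by
      intro l l' h
      obtain ⟨c, hc⟩ := hπ l
      obtain ⟨c', hc'⟩ := hπ l'
      rw [h] at hc
      have hc0 : c' ≠ 0 := by
        rintro rfl
        rw [zero_smul] at hc'
        apply (hconj σ (p l') (e l').2.1 (e l').2.2).1.ne
        exact hc'
      apply e.injective
      apply Subtype.ext
      rw [← Projectivization.mk_rep (e l : ℙ Ω (Fin (X.n + 1) → Ω)),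
        ← Projectivization.mk_rep (e l' : ℙ Ω (Fin (X.n + 1) → Ω)),
        Projectivization.mk_eq_mk_iff']
      refine ⟨σ.symm (c / c'), ?_⟩
      funext i
      apply σ.injective
      change σ (σ.symm (c / c') * p l' i) = σ (p l i)
      rw [map_mul, AlgEquiv.apply_symm_apply]
      have h1 : σ (p l' i) = c' * p (π l') i := congrFun hc' i
      have h2 : σ (p l i) = c * p (π l') i := congrFun hc i
      rw [h1, h2, ← mul_assoc, div_mul_cancel₀ _ hc0]
    exact ⟨Equiv.ofBijective π ⟨hinj, Finite.surjective_of_injective hinj⟩, hπ⟩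
  let f : SymMap k K E X (Fintype.card PP) := ⟨p, fun l => (e l).2.1, hst⟩
  refine ⟨_, f, hcard, ?_⟩
  -- the point is algebraic over the values
  have hall : ∀ x : Fin (X.n + 1) → Ω, X.Point x → Rel C.Γ zΩ x → ∀ i j, x j ≠ 0 →
      x i / x j ∈ aclo K f.values := by
    intro x hx h i j hj
    refine subset_aclo _ ?_
    obtain ⟨c, hc⟩ := Projectivization.exists_smul_eq_mk_rep Ω x hx.ne
    have h1 : p (e.symm ⟨_, hmem x hx h⟩) = fun i => (c : Ω) * x i := by
      change (e (e.symm ⟨_, hmem x hx h⟩) : ℙ Ω (Fin (X.n + 1) → Ω)).rep = _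
      rw [Equiv.apply_symm_apply]
      exact hc.symm
    refine ⟨e.symm ⟨_, hmem x hx h⟩, i, j, ?_, ?_⟩
    · change p _ j ≠ 0
      rw [h1]
      exact mul_ne_zero c.ne_zero hj
    · have h2 : p (e.symm ⟨_, hmem x hx h⟩) i / p (e.symm ⟨_, hmem x hx h⟩) j = x i / x j := by
        rw [h1]
        exact mul_div_mul_left (G₀ := AlgebraicClosure E) (x i) (x j) c.ne_zero
      exact h2.symm
  have h1 := C.fin Ω zΩ hzΩ (aclo K f.values) (isAlgClosed_aclo _) hall
  intro i j hj
  rw [map_div₀]
  exact h1 i j ((map_ne_zero _).2 hj)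

end

end Pool.Agent.N95.TD
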