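import Pool.Agent.N95.TD.GrpA

/-!
Canonical forms on the bases of the fibrations defined by rational maps to symmetric powers.
-/

set_option autoImplicit false
set_option linter.unusedSectionVars false
set_option linter.overlappingInstances false

open FF Module IntermediateField
open Pool.Agent.N111.GI (GenericCI)
open Pool.Agent.N111.FT (aclo mem_aclo subset_aclo aclo_le aclo_mono aclo_closed map_mem_aclo_iff)
open Pool.Agent.N95.PR (ratios adjoin_ratios base mem_base base_closed alg_base trdeg_base
  ratios_norm ratios_image)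
open Pool.Agent.N95.RF

namespace Pool.Agent.N95.TD

section

variable {k K L : Type} [Field k] [Field K] [CharZero K] [IsAlgClosed K] [Algebra k K] [Field L]
  [Algebra K L]

/-- **Fibrations defined by rational maps to products of symmetric powers.** -/
theorem one_sym [Algebra.EssFiniteType K L] {s : ℕ} (X : Fin s → GenericCI k K)
    (r w : Fin s → ℕ) (f : ∀ j, SymMap k K L (X j) (r j))
    (hw : ∀ j, Algebra.trdeg K (adjoin K (f j).values) = w j) (hpos : ∀ j, 0 < w j)
    (hdeg : ∀ j a, min (r j) (w j) ≤ (X j).d a)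
    (hd : ∀ j, (min (r j) (w j) + 1) * (X j).m + r j ≤ ∑ a, ((X j).d a + 1) + w j)
    (hind : Algebra.trdeg K (adjoin K (⋃ j, (f j).values)) = (∑ j, w j : ℕ)) :
    OneType K (base K L (⋃ j, (f j).values)) (∑ j, w j) := by
  classical
  have hsel : ∀ j, ∃ (ρ : ℕ) (g : Fin ρ → Fin (r j)), ρ ≤ w j ∧ ρ ≤ r j ∧
      (∀ i i', i ≠ i' → ratios ((f j).p (g i)) ≠ ratios ((f j).p (g i'))) ∧
      aclo K (⋃ i, ratios ((f j).p (g i))) = aclo K (f j).values := by
    intro j
    obtain ⟨ρ, g, h1, h2, h3, h4⟩ := exists_sel (w := w j) (fun l => ratios ((f j).p l)) (by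
      rw [← (f j).values_eq]
      exact hw j)
    rw [← (f j).values_eq] at h4
    exact ⟨ρ, g, h1, h2, h3, h4⟩
  choose ρ g hρw hρr hne hcl using hsel
  have hr0 : ∀ j, 0 < r j := by
    intro j
    rcases Nat.eq_zero_or_pos (r j) with h | h
    · exfalso
      have h1 : (f j).values = ∅ := by
        rw [Set.eq_empty_iff_forall_notMem]
        rintro z ⟨l, -⟩
        exact absurd l.2 (by omega)
      have h0 := hw j
      rw [h1, adjoin_empty] at h0
      have h2 : Algebra.trdeg K (⊥ : IntermediateField K (AlgebraicClosure L)) = 0 :=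
        _root_.trdeg_eq_zero
      rw [h2] at h0
      have h3 : w j = 0 := by exact_mod_cast h0.symm
      have h4 := hpos j
      omega
    · exact h
  -- the closures
  have hle : ∀ j, (f j).values ⊆ aclo K (⋃ j, ⋃ i, ratios ((f j).p (g j i))) := fun j =>
    (subset_aclo (f j).values).trans (by
      rw [← hcl j]
      exact aclo_mono (Set.subset_iUnion (fun j => ⋃ i, ratios ((f j).p (g j i))) j))
  have hsub : ∀ j i, ratios ((f j).p (g j i)) ⊆ (f j).values := fun j i => by
    rw [(f j).values_eq]
    exact Set.subset_iUnion (fun l => ratios ((f j).p l)) _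
  have hcl' : aclo K (⋃ j, ⋃ i, ratios ((f j).p (g j i))) = aclo K (⋃ j, (f j).values) := by
    apply le_antisymm
    · exact aclo_mono (Set.iUnion_mono fun j => Set.iUnion_subset fun i => hsub j i)
    · exact aclo_le (Set.iUnion_subset hle)
  have hbase : base K L (⋃ j, ⋃ i, ratios ((f j).p (g j i))) = base K L (⋃ j, (f j).values) := by
    ext z
    rw [mem_base, mem_base, hcl']
  rw [← hbase]
  refine one_fib X ρ r w (fun j i => (f j).p (g j i)) (fun j i => (f j).pt _)
    (fun j i i' hii => ?_) (fun j a => (le_min (hρr j) (hρw j)).trans (hdeg j a)) hr0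
    (fun j i => ((f j).finrank_le _).2) (fun j => ?_) hpos (fun j => ?_) ?_ fun σ j i z hz => ?_
  · by_contra hcon
    push Not at hcon
    exact hne j i i' hii (ratios_eq_of_prop ((f j).pt _).ne ((f j).pt _).ne hcon)
  · rw [trdeg_aclo (hcl j)]
    exact hw j
  · refine le_trans ?_ (hd j)
    have h1 := le_min (hρr j) (hρw j)
    have h2 : (ρ j + 1) * (X j).m ≤ (min (r j) (w j) + 1) * (X j).m :=
      Nat.mul_le_mul_right _ (by omega)
    omega
  · rw [trdeg_aclo hcl']
    exact hind
  · exact hle j ((f j).values_conj σ (hsub j i hz))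

/-- **The base of the fibration defined by a map to a symmetric power is of general type.** -/
theorem one_base [Algebra.EssFiniteType K L] {X : GenericCI k K} {r : ℕ}
    (f : SymMap k K L X r) {w : ℕ} (hdeg : ∀ a, min r w ≤ X.d a)
    (hw : Algebra.trdeg K (adjoin K f.values) = w) (hpos : 0 < w)
    (hd : (min r w + 1) * X.m + r ≤ ∑ a, (X.d a + 1) + w) :
    OneType K (base K L f.values) w := by
  have hU : ⋃ _ : Fin 1, f.values = f.values := Set.iUnion_const _
  have h1 := one_sym (s := 1) (fun _ => X) (fun _ => r) (fun _ => w) (fun _ => f) (fun _ => hw)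
    (fun _ => hpos) (fun _ => hdeg) (fun _ => hd) (by
      rw [hU, hw]
      simp)
  rw [hU] at h1
  simpa using h1

end

end Pool.Agent.N95.TD
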