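import Pool.Agent.N95.TD.Main
import Pool.Agent.N95.RF.Grp2

/-!
Regular canonical forms on the images.
-/

set_option autoImplicit false
set_option linter.unusedSectionVars false
set_option linter.overlappingInstances false

open FF Module Pool.Agent.W602.GT Pool.Agent.W603.LV Pool.Agent.W619.PQ Pool.Agent.Y172
open Pool.Agent.N111.GI

namespace Pool.Agent.N95.TD

/-- The varieties of dimension `w` over `k` with function field `K` have positive geometric genus: there
is a nonzero canonical form which is regular at all prime divisors. -/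
def OneType (k K : Type) [Field k] [Field K] [Algebra k K] (w : ℕ) : Prop :=
  Algebra.trdeg k K = w ∧ ∃ ω : (Fin w → Derivation k K K) → K,
    IsPluri 1 ω ∧ (∀ P : Place k K, Divisorial w P → RegAt P ω) ∧ ∃ D, ω D ≠ 0

section

variable {k K L : Type} [Field k] [CharZero k] [IsAlgClosed k] [Field K] [Field L] [Algebra k K] [Algebra k L]
  [Algebra K L] [IsScalarTower k K L] [FiniteDimensional K L] [Algebra.EssFiniteType k K]
  [Algebra.EssFiniteType k L] {n : ℕ}

/-- **Positive genus of images**, for a family of multipliers. -/
theorem one_abs (hL : Algebra.trdeg k K = n) {G : Type} (u : G → L)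
    {ω : (Fin n → Derivation k L L) → L} (hω : IsPluri 1 ω)
    (hreg : ∀ (g : G) (P : Place k L), Divisorial n P → RegAt P (fun D => u g * ω D))
    (hne : ∃ E, ω E ≠ 0) (hspan : Submodule.span K (Set.range u) = ⊤) : OneType k K n := by
  classical
  have hcK : CharZero K := charZero_of_injective_algebraMap (algebraMap k K).injective
  obtain ⟨y, E, hy, hE⟩ := exists_crd hL
  choose E' hE' using fun i => exists_lift (L := L) hL (E i)
  have hyL : IsTranscendenceBasis k (fun j => algebraMap K L (y j)) := hy.algebraMap_comp
  have hEL := lift_dual hE hE'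
  have hωE : ω E' ≠ 0 := by
    obtain ⟨D, hD⟩ := hne
    intro h0
    apply hD
    rw [pluri_coord hyL hEL hω D, h0, mul_zero]
  have hWp : ∀ g, IsPluri 1 (fun D => u g * ω D) := by
    intro g A D
    change u g * ω (fun i => ∑ j, A i j • D j) = _
    rw [hω A D]
    ring
  obtain ⟨T, hTdef⟩ : ∃ T : G → K, ∀ g, T g = Algebra.trace K L (u g * ω E') :=
    ⟨_, fun _ => rfl⟩
  have hθE : ∀ t, trForm y t E = t := by
    intro t
    have h1 : (Matrix.of fun i j => E i (y j) : Matrix (Fin n) (Fin n) K) = 1 := by
      ext i j
      rw [Matrix.of_apply, hE, Matrix.one_apply]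
    rw [trForm, h1, Matrix.det_one, one_mul]
  have hθr : ∀ g (P : Place k K), Divisorial n P → RegAt P (trForm y (T g)) := by
    intro g P hP
    rw [hTdef]
    exact trForm_regAt hL hy hE hE' (fun D => u g * ω D) (hWp g) P hP
      fun Q e hQ => hreg g Q (divisorial_up hQ hP)
  -- a nonzero trace
  obtain ⟨g0, hg0⟩ : ∃ g, T g ≠ 0 := by
    by_contra hcon
    push Not at hcon
    apply hωE
    have h1 : ∀ z : L, Algebra.trace K L (z * ω E') = 0 := by
      intro z
      have hz : z ∈ Submodule.span K (Set.range u) := by rw [hspan]; trivial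
      induction hz using Submodule.span_induction with
      | mem z hz =>
        obtain ⟨g, rfl⟩ := hz
        rw [← hTdef]
        exact hcon g
      | zero => rw [zero_mul, map_zero]
      | add a b _ _ ha hb => rw [add_mul, map_add, ha, hb, add_zero]
      | smul c a _ ha => rw [smul_mul_assoc, map_smul, ha, smul_zero]
    by_contra h0
    have h2 := h1 (ω E')⁻¹
    rw [inv_mul_cancel₀ h0] at h2
    have h3 : Algebra.trace K L 1 = (Module.finrank K L : K) := by
      have := Algebra.trace_algebraMap (R := K) (S := L) (1 : K)
      rw [map_one, nsmul_eq_mul, mul_one] at this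
      exact this
    rw [h3] at h2
    have h4 : 0 < Module.finrank K L := Module.finrank_pos
    have h5 : Module.finrank K L = 0 := by exact_mod_cast h2
    omega
  refine ⟨hL, trForm y (T g0), trForm_pluri y _, fun P hP => hθr _ P hP, E, ?_⟩
  rw [hθE]
  exact hg0

end

end Pool.Agent.N95.TD
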